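import Pool.Agent.H81.TS.Tree

/-!
# Certificates and the lower bound
-/

set_option autoImplicit false

open Finset Set

namespace Pool.Agent.H81.TS

/-- the sign of a sum of two differences -/
theorem sign_add_eq {a b a' b' : ℝ} (ha : 0 ≤ a) (hb : 0 ≤ b)
    (h1 : SignType.sign a' = SignType.sign a) (h2 : SignType.sign b' = SignType.sign b) :
    SignType.sign (a' + b') = SignType.sign (a + b) := by
  rcases ha.eq_or_lt with ha0 | hap
  · rw [← ha0, sign_zero] at h1
    rw [sign_eq_zero_iff.1 h1, ← ha0, zero_add, zero_add, h2]
  · rcases hb.eq_or_lt with hb0 | hbp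
    · rw [← hb0, sign_zero] at h2
      rw [sign_eq_zero_iff.1 h2, ← hb0, add_zero, add_zero, h1]
    · rw [sign_pos hap] at h1
      rw [sign_pos hbp] at h2
      have h3 := sign_eq_one_iff.1 h1
      have h4 := sign_eq_one_iff.1 h2
      rw [sign_pos (add_pos h3 h4), sign_pos (add_pos hap hbp)]

/-- the comparisons of neighbours imply all comparisons -/
theorem neighbours {J E : Type} [DecidableEq J] (v : J → E → ℝ) (x : E) (T : Finset J) :
    ∃ C : Finset (J × J), C.card + 1 ≤ T.card + (if T = ∅ then 1 else 0) ∧
      (∀ q ∈ C, q.1 ∈ T ∧ q.2 ∈ T) ∧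
      ∀ y, (∀ q ∈ C, sg v q.1 q.2 y = sg v q.1 q.2 x) → y ∈ Know v T x := by
  classical
  induction T using Finset.induction_on_max_value (fun j => v j x) with
  | empty => exact ⟨∅, by simp, by simp, fun y _ p hp => absurd hp (Finset.notMem_empty p)⟩
  | insert a T ha hmax ih =>
    obtain ⟨C, hC, hCT, hCy⟩ := ih
    rcases T.eq_empty_or_nonempty with rfl | hne
    · refine ⟨∅, by simp, by simp, ?_⟩
      intro y _ p hp q hq
      rw [Finset.mem_insert, or_iff_left (Finset.notMem_empty _)] at hp hq
      subst hp
      subst hq
      unfold sg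
      simp
    · obtain ⟨b, hb, hbmax⟩ := Finset.exists_max_image T (fun j => v j x) hne
      refine ⟨insert (a, b) C, ?_, ?_, ?_⟩
      · rw [if_neg (Finset.nonempty_iff_ne_empty.1 hne)] at hC
        rw [if_neg (Finset.insert_ne_empty _ _), Finset.card_insert_of_notMem ha]
        have := Finset.card_insert_le (a, b) C
        omega
      · intro q hq
        rcases Finset.mem_insert.1 hq with rfl | hq
        · exact ⟨Finset.mem_insert_self _ _, Finset.mem_insert_of_mem hb⟩
        · exact ⟨Finset.mem_insert_of_mem (hCT q hq).1, Finset.mem_insert_of_mem (hCT q hq).2⟩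
      · intro y hy
        have hab : sg v a b y = sg v a b x := hy (a, b) (Finset.mem_insert_self _ _)
        have hold : y ∈ Know v T x := hCy y fun q hq => hy q (Finset.mem_insert_of_mem hq)
        have hnew : ∀ c ∈ T, sg v a c y = sg v a c x := by
          intro c hc
          have hbc := hold b hb c hc
          unfold sg at hab hbc ⊢
          have e1 : v a y - v c y = (v a y - v b y) + (v b y - v c y) := by ring
          have e2 : v a x - v c x = (v a x - v b x) + (v b x - v c x) := by ring
          rw [e1, e2]
          exact sign_add_eq (sub_nonneg.2 (hmax b hb)) (sub_nonneg.2 (hbmax c hc)) hab hbc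
        have hsymm : ∀ p q : J, ∀ z : E, sg v q p z = -sg v p q z := by
          intro p q z
          unfold sg
          rw [← Left.sign_neg]
          congr 1
          ring
        intro p hp q hq
        rcases Finset.mem_insert.1 hp with hp' | hp'
        · rcases Finset.mem_insert.1 hq with hq' | hq'
          · subst hp'
            subst hq'
            unfold sg
            simp
          · subst hp'
            exact hnew q hq'
        · rcases Finset.mem_insert.1 hq with hq' | hq'
          · subst hq'
            rw [hsymm q p y, hsymm q p x, hnew p hp']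
          · exact hold p hp' q hq'

/-- certificates for the signs of all forms of a finite family -/
theorem cert_exists {n : ℕ} (H : Finset (Fin n → ℤ)) (w b : ℕ) (hw0 : 0 < w)
    (hb : 16 * w ≤ 2 ^ b) (hw : ∀ h ∈ H, ∑ j, (h j).natAbs ≤ w) (x : Fin n → ℝ) :
    ∃ C : Finset (Fin n → ℤ), C.card ≤ 6 * (b * n + 1) ∧
      (∀ c ∈ C, ∃ h ∈ insert 0 H, ∃ h' ∈ insert 0 H, c = h - h') ∧
      ∀ y : Fin n → ℝ, (∀ c ∈ C, SignType.sign (value c y) = SignType.sign (value c x)) →
        ∀ h ∈ H, SignType.sign (value h y) = SignType.sign (value h x) := by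
  classical
  let g : Option H → Fin n → ℤ := fun j => j.elim 0 fun h => (h : Fin n → ℤ)
  have hg : ∀ j, g j ∈ insert 0 H := by
    intro j
    cases j with
    | none => exact Finset.mem_insert_self _ _
    | some h => exact Finset.mem_insert_of_mem h.2
  have hnorm : ∀ j, ∑ i, (g j i).natAbs ≤ w := by
    intro j
    cases j with
    | none => simp [g]
    | some h => exact hw h h.2
  have hcomp : Compress (V g) none (6 * (b * n + 1)) := by
    apply compress_forms g none rfl (2 * w) b (by omega) (by omega)
    intro p q
    calc ∑ j, (g p j - g q j).natAbs ≤ ∑ j, ((g p j).natAbs + (g q j).natAbs) :=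
          Finset.sum_le_sum fun j _ => Int.natAbs_sub_le _ _
      _ = ∑ j, (g p j).natAbs + ∑ j, (g q j).natAbs := Finset.sum_add_distrib
      _ ≤ w + w := add_le_add (hnorm p) (hnorm q)
      _ = 2 * w := by ring
  obtain ⟨T, -, hTc, hT⟩ := hcomp x Finset.univ
  obtain ⟨C, hC, hCT, hCy⟩ := neighbours (V g) x (insert none T)
  have hsg : ∀ (p q : Option H) (z : Fin n → ℝ),
      SignType.sign (value (g p - g q) z) = sg (V g) p q z := by
    intro p q z
    unfold sg V
    rw [← value_sub]
    rfl
  refine ⟨C.image fun q => g q.1 - g q.2, ?_, ?_, ?_⟩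
  · refine Finset.card_image_le.trans ?_
    rw [if_neg (Finset.insert_ne_empty _ _)] at hC
    have := Finset.card_insert_le (none : Option H) T
    omega
  · intro c hc
    obtain ⟨q, hq, rfl⟩ := Finset.mem_image.1 hc
    exact ⟨g q.1, hg _, g q.2, hg _, rfl⟩
  · intro y hy h hh
    have h1 : y ∈ Know (V g) (insert none T) x := by
      apply hCy
      intro q hq
      rw [← hsg, ← hsg]
      exact hy _ (Finset.mem_image_of_mem _ hq)
    exact hT (some ⟨h, hh⟩) (Finset.mem_univ _) y h1

end Pool.Agent.H81.TS
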