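import Pool.Agent.H81.TS.Forms

/-!
# The number of outcomes of all comparisons

`M` linear functionals have at most `(2 M + 1) ^ d` different sign vectors on a space of dimension `d`.
-/

set_option autoImplicit false

open Finset Set

namespace Pool.Agent.H81.TS

variable {W : Type} [AddCommGroup W] [Module ℝ W] [FiniteDimensional ℝ W]

/-- the sign vectors of a list of functionals on a subspace -/
def signs (ls : List (W →ₗ[ℝ] ℝ)) (U : Submodule ℝ W) : Set (List SignType) :=
  (fun x => ls.map fun l => SignType.sign (l x)) '' (U : Set W)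

omit [FiniteDimensional ℝ W] in
theorem signs_finite (ls : List (W →ₗ[ℝ] ℝ)) : ∀ U : Submodule ℝ W, (signs ls U).Finite := by
  induction ls with
  | nil =>
    intro U
    apply Set.Finite.subset (Set.finite_singleton [])
    rintro _ ⟨x, _, rfl⟩
    rfl
  | cons l ls ih =>
    intro U
    have : signs (l :: ls) U ⊆ Set.image2 (fun s τ => s :: τ) Set.univ (signs ls U) := by
      rintro _ ⟨x, hx, rfl⟩
      exact ⟨SignType.sign (l x), Set.mem_univ _, _, ⟨x, hx, rfl⟩, rfl⟩
    exact Set.Finite.subset (Set.Finite.image2 _ Set.finite_univ (ih U)) this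

omit [FiniteDimensional ℝ W] in
theorem sign_combine {s : SignType} {a b x y : ℝ} (ha : 0 < a) (hb : 0 < b)
    (hx : SignType.sign x = s) (hy : SignType.sign y = s) :
    SignType.sign (a * x + b * y) = s := by
  cases s with
  | zero =>
    have h1 : x = 0 := sign_eq_zero_iff.1 hx
    have h2 : y = 0 := sign_eq_zero_iff.1 hy
    rw [h1, h2]
    simp
  | neg =>
    have h1 : x < 0 := sign_eq_neg_one_iff.1 hx
    have h2 : y < 0 := sign_eq_neg_one_iff.1 hy
    exact sign_eq_neg_one_iff.2 (by nlinarith)
  | pos =>
    have h1 : 0 < x := sign_eq_one_iff.1 hx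
    have h2 : 0 < y := sign_eq_one_iff.1 hy
    exact sign_eq_one_iff.2 (by nlinarith)

theorem signs_card (ls : List (W →ₗ[ℝ] ℝ)) : ∀ U : Submodule ℝ W,
    (signs ls U).ncard ≤ (2 * ls.length + 1) ^ Module.finrank ℝ U := by
  induction ls with
  | nil =>
    intro U
    have : signs ([] : List (W →ₗ[ℝ] ℝ)) U ⊆ {[]} := by
      rintro _ ⟨x, _, rfl⟩
      rfl
    have h := Set.ncard_le_ncard this (Set.finite_singleton _)
    rw [Set.ncard_singleton] at h
    simpa using h
  | cons l ls ih =>
    intro U
    set m := ls.length with hm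
    have hlen : (l :: ls).length = m + 1 := rfl
    rw [hlen]
    -- the parts with a given first sign
    let A : SignType → Set (List SignType) := fun s => {τ | (s :: τ) ∈ signs (l :: ls) U}
    have hAfin : ∀ s, (A s).Finite := by
      intro s
      apply Set.Finite.subset (signs_finite ls U)
      rintro τ ⟨x, hx, hxτ⟩
      simp only [List.map_cons, List.cons.injEq] at hxτ
      exact ⟨x, hx, hxτ.2⟩
    have hA0 : ∀ s, A s ⊆ signs ls U := by
      rintro s τ ⟨x, hx, hxτ⟩
      simp only [List.map_cons, List.cons.injEq] at hxτ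
      exact ⟨x, hx, hxτ.2⟩
    have hsplit : signs (l :: ls) U =
        (List.cons (-1)) '' (A (-1)) ∪ (List.cons 0) '' (A 0) ∪ (List.cons 1) '' (A 1) := by
      ext τ
      constructor
      · rintro ⟨x, hx, rfl⟩
        have hmem : (l :: ls).map (fun l => SignType.sign (l x)) ∈ signs (l :: ls) U :=
          ⟨x, hx, rfl⟩
        show (l :: ls).map (fun l => SignType.sign (l x)) ∈ _
        rw [List.map_cons] at hmem ⊢
        generalize ht : ls.map (fun l => SignType.sign (l x)) = τ' at hmem ⊢
        cases hs : SignType.sign (l x) with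
        | neg =>
          rw [hs] at hmem
          exact Or.inl (Or.inl ⟨τ', hmem, rfl⟩)
        | zero =>
          rw [hs] at hmem
          exact Or.inl (Or.inr ⟨τ', hmem, rfl⟩)
        | pos =>
          rw [hs] at hmem
          exact Or.inr ⟨τ', hmem, rfl⟩
      · rintro ((⟨τ', h, rfl⟩ | ⟨τ', h, rfl⟩) | ⟨τ', h, rfl⟩) <;> exact h
    have hcard : (signs (l :: ls) U).ncard ≤ (A (-1)).ncard + (A 0).ncard + (A 1).ncard := by
      rw [hsplit]
      refine (Set.ncard_union_le _ _).trans (add_le_add ((Set.ncard_union_le _ _).trans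
        (add_le_add ?_ ?_)) ?_) <;> exact Set.ncard_image_le (hAfin _)
    by_cases hU : U ≤ LinearMap.ker l
    · -- the new functional vanishes
      have hzero : ∀ s, s ≠ 0 → A s = ∅ := by
        intro s hs
        rw [Set.eq_empty_iff_forall_notMem]
        rintro τ ⟨x, hx, hxτ⟩
        simp only [List.map_cons, List.cons.injEq] at hxτ
        have : l x = 0 := LinearMap.mem_ker.1 (hU hx)
        rw [this, sign_zero] at hxτ
        exact hs hxτ.1.symm
      rw [hzero (-1) (by decide), hzero 1 (by decide), Set.ncard_empty] at hcard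
      have h0 : (A 0).ncard ≤ (signs ls U).ncard := Set.ncard_le_ncard (hA0 0) (signs_finite ls U)
      calc _ ≤ (signs ls U).ncard := by omega
        _ ≤ (2 * m + 1) ^ Module.finrank ℝ U := ih U
        _ ≤ _ := Nat.pow_le_pow_left (by omega) _
    · set U' := U ⊓ LinearMap.ker l with hU'
      have hlt : U' < U := by
        refine lt_of_le_of_ne inf_le_left fun h => hU ?_
        rw [hU', inf_eq_left] at h
        exact h
      have hfr : Module.finrank ℝ U' < Module.finrank ℝ U := Submodule.finrank_lt_finrank_of_lt hlt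
      have h0 : A 0 ⊆ signs ls U' := by
        rintro τ ⟨x, hx, hxτ⟩
        simp only [List.map_cons, List.cons.injEq] at hxτ
        refine ⟨x, ?_, hxτ.2⟩
        rw [SetLike.mem_coe, hU', Submodule.mem_inf]
        exact ⟨hx, LinearMap.mem_ker.2 (sign_eq_zero_iff.1 hxτ.1)⟩
      have hint : A (-1) ∩ A 1 ⊆ signs ls U' := by
        rintro τ ⟨⟨x, hx, hxτ⟩, ⟨y, hy, hyτ⟩⟩
        simp only [List.map_cons, List.cons.injEq] at hxτ hyτ
        have hlx : l x < 0 := sign_eq_neg_one_iff.1 hxτ.1
        have hly : 0 < l y := sign_eq_one_iff.1 hyτ.1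
        refine ⟨l y • x + (-l x) • y, ?_, ?_⟩
        · rw [SetLike.mem_coe, hU', Submodule.mem_inf]
          refine ⟨U.add_mem (U.smul_mem _ hx) (U.smul_mem _ hy), ?_⟩
          rw [LinearMap.mem_ker, map_add, map_smul, map_smul, smul_eq_mul, smul_eq_mul]
          ring
        · have hxy : ls.map (fun l => SignType.sign (l x)) =
              ls.map (fun l => SignType.sign (l y)) := by rw [hxτ.2, hyτ.2]
          rw [← hxτ.2]
          apply List.map_congr_left
          intro l' hl'
          have h1 : SignType.sign (l' x) = SignType.sign (l' y) := by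
            have := List.map_inj_left.1 hxy l' hl'
            exact this
          rw [map_add, map_smul, map_smul, smul_eq_mul, smul_eq_mul]
          exact sign_combine hly (by linarith) rfl h1.symm
      have h2 := Set.ncard_union_add_ncard_inter (A (-1)) (A 1) (hAfin _) (hAfin _)
      have h3 : (A (-1) ∪ A 1).ncard ≤ (signs ls U).ncard :=
        Set.ncard_le_ncard (Set.union_subset (hA0 _) (hA0 _)) (signs_finite ls U)
      have h4 : (A (-1) ∩ A 1).ncard ≤ (signs ls U').ncard :=
        Set.ncard_le_ncard hint (signs_finite ls U')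
      have h5 : (A 0).ncard ≤ (signs ls U').ncard := Set.ncard_le_ncard h0 (signs_finite ls U')
      obtain ⟨d, hd⟩ : ∃ d, Module.finrank ℝ U = d + 1 := ⟨Module.finrank ℝ U - 1, by omega⟩
      have h6 : (signs ls U').ncard ≤ (2 * m + 1) ^ d := by
        refine (ih U').trans (Nat.pow_le_pow_right (by omega) (by omega))
      have h7 := ih U
      rw [hd] at h7 ⊢
      calc _ ≤ (2 * m + 1) ^ (d + 1) + 2 * (2 * m + 1) ^ d := by omega
        _ = (2 * m + 1) ^ d * (2 * (m + 1) + 1) := by ring
        _ ≤ (2 * (m + 1) + 1) ^ d * (2 * (m + 1) + 1) :=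
            Nat.mul_le_mul_right _ (Nat.pow_le_pow_left (by omega) _)
        _ = _ := by rw [pow_succ]

/-- the number of cells for integer forms -/
theorem N_univ_le {J : Type} [Fintype J] {n : ℕ} (g : J → Fin n → ℤ) :
    N (V g) Set.univ ≤ (2 * Fintype.card J ^ 2 + 1) ^ n := by
  classical
  let L : J × J → ((Fin n → ℝ) →ₗ[ℝ] ℝ) := fun q =>
    { toFun := fun x => V g q.1 x - V g q.2 x
      map_add' := by
        intro x y
        unfold V value
        simp only [Pi.add_apply, mul_add, Finset.sum_add_distrib]
        ring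
      map_smul' := by
        intro c x
        unfold V value
        simp only [Pi.smul_apply, smul_eq_mul, RingHom.id_apply, mul_sub, Finset.mul_sum]
        congr 1 <;> exact Finset.sum_congr rfl fun i _ => by ring }
  let ls := (Finset.univ : Finset (J × J)).toList.map L
  have h1 := signs_card ls ⊤
  have hlen : ls.length = Fintype.card J ^ 2 := by
    simp only [ls, List.length_map, Finset.length_toList, Finset.card_univ, Fintype.card_prod]
    ring
  rw [hlen, finrank_top, Module.finrank_fin_fun] at h1
  refine le_trans ?_ h1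
  unfold N
  refine Set.ncard_le_ncard_of_injOn
    (fun c : J × J → SignType => (Finset.univ : Finset (J × J)).toList.map c) ?_ ?_
    (signs_finite ls ⊤)
  · rintro _ ⟨x, _, rfl⟩
    refine ⟨x, trivial, ?_⟩
    simp only [ls, List.map_map]
    rfl
  · rintro c _ c' _ h
    funext q
    exact List.map_inj_left.1 h q (Finset.mem_toList.2 (Finset.mem_univ q))

end Pool.Agent.H81.TS
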