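import Pool.Agent.H81.TS.Rounds

/-!
# Integer forms with few terms

Among `2 (b n + 1)` integer vectors with `n` coordinates and absolute norm at most `w`, `8 w ≤ 2 ^ b`, two
different subsets have the same sum. Hence the hypothesis `Compress` with `D = 6 (b n + 1)`.
-/

set_option autoImplicit false

open Finset Set

namespace Pool.Agent.H81.TS

theorem pow_bernoulli (w : ℕ) (hw : 0 < w) :
    (1 / 2 : ℝ) ≤ (1 - 1 / (4 * (w : ℝ))) ^ (2 * w) := by
  have hwR : (1 : ℝ) ≤ w := by exact_mod_cast hw
  have h := one_add_mul_le_pow (a := -(1 / (4 * (w : ℝ)))) (by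
    have : 1 / (4 * (w : ℝ)) ≤ 1 := by
      rw [div_le_one (by linarith)]
      linarith
    linarith) (2 * w)
  have e1 : (1 : ℝ) + ((2 * w : ℕ) : ℝ) * -(1 / (4 * (w : ℝ))) = 1 / 2 := by
    push_cast
    field_simp
    ring
  rw [e1] at h
  rwa [← sub_eq_add_neg] at h

/-- the generating function of the absolute values of the integers -/
theorem sum_box (z : ℝ) (hz0 : 0 ≤ z) (hz1 : z < 1) (R : ℕ) :
    ∑ t ∈ Finset.Icc (-(R : ℤ)) R, z ^ t.natAbs ≤ 2 / (1 - z) := by
  have hgeo : ∑ i ∈ Finset.range (R + 1), z ^ i ≤ 1 / (1 - z) := by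
    have h1 : ∑ i ∈ Finset.range (R + 1), z ^ i ≤ ∑' i, z ^ i :=
      (summable_geometric_of_lt_one hz0 hz1).sum_le_tsum _ fun i _ => pow_nonneg hz0 i
    rw [tsum_geometric_of_lt_one hz0 hz1] at h1
    simpa using h1
  have hsub : Finset.Icc (-(R : ℤ)) R ⊆ ((Finset.range (R + 1)).image fun i : ℕ => (i : ℤ)) ∪
      ((Finset.range (R + 1)).image fun i : ℕ => -(i : ℤ)) := by
    intro t ht
    rw [Finset.mem_Icc] at ht
    rw [Finset.mem_union, Finset.mem_image, Finset.mem_image]
    rcases le_total 0 t with h | h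
    · left
      refine ⟨t.natAbs, Finset.mem_range.2 (by omega), by omega⟩
    · right
      refine ⟨t.natAbs, Finset.mem_range.2 (by omega), by omega⟩
  have hnn : ∀ t : ℤ, 0 ≤ z ^ t.natAbs := fun t => pow_nonneg hz0 _
  calc _ ≤ ∑ t ∈ ((Finset.range (R + 1)).image fun i : ℕ => (i : ℤ)) ∪
        ((Finset.range (R + 1)).image fun i : ℕ => -(i : ℤ)), z ^ t.natAbs :=
        Finset.sum_le_sum_of_subset_of_nonneg hsub fun t _ _ => hnn t
    _ ≤ ∑ t ∈ ((Finset.range (R + 1)).image fun i : ℕ => (i : ℤ)), z ^ t.natAbs +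
        ∑ t ∈ ((Finset.range (R + 1)).image fun i : ℕ => -(i : ℤ)), z ^ t.natAbs := by
        rw [← Finset.sum_union_inter]
        exact le_add_of_nonneg_right (Finset.sum_nonneg fun t _ => hnn t)
    _ = ∑ i ∈ Finset.range (R + 1), z ^ i + ∑ i ∈ Finset.range (R + 1), z ^ i := by
        rw [Finset.sum_image, Finset.sum_image]
        · simp
        · intro a _ b _ h
          simpa using h
        · intro a _ b _ h
          simpa using h
    _ ≤ 1 / (1 - z) + 1 / (1 - z) := add_le_add hgeo hgeo
    _ = 2 / (1 - z) := by ring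

/-- two subsets with the same sum -/
theorem collision (n w b k : ℕ) (hw : 0 < w) (hb : 8 * w ≤ 2 ^ b) (hk : k = 2 * (b * n + 1))
    (c : Fin k → Fin n → ℤ) (hc : ∀ i, ∑ j, (c i j).natAbs ≤ w) :
    ∃ ε : Fin k → ℤ, (∀ i, ε i = 0 ∨ ε i = 1 ∨ ε i = -1) ∧ (∃ i, ε i ≠ 0) ∧
      ∀ j, ∑ i, ε i * c i j = 0 := by
  classical
  let F : Finset (Fin k) → Fin n → ℤ := fun S j => ∑ i ∈ S, c i j
  have hF : ¬ Function.Injective F := by
    intro hinj
    set z : ℝ := 1 - 1 / (4 * (w : ℝ)) with hz
    have hwR : (1 : ℝ) ≤ w := by exact_mod_cast hw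
    have hz0 : 0 < z := by
      have : 1 / (4 * (w : ℝ)) < 1 := by
        rw [div_lt_one (by linarith)]
        linarith
      rw [hz]
      linarith
    have hz1 : z < 1 := by
      have : 0 < 1 / (4 * (w : ℝ)) := by positivity
      rw [hz]
      linarith
    set R := w * k with hR
    have hnorm : ∀ S, ∑ j, (F S j).natAbs ≤ R := by
      intro S
      calc ∑ j, (F S j).natAbs ≤ ∑ j, ∑ i ∈ S, (c i j).natAbs := by
            apply Finset.sum_le_sum
            intro j _
            exact Int.natAbs_sum_le _ _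
        _ = ∑ i ∈ S, ∑ j, (c i j).natAbs := Finset.sum_comm
        _ ≤ ∑ i ∈ S, w := Finset.sum_le_sum fun i _ => hc i
        _ = S.card * w := by rw [Finset.sum_const, smul_eq_mul]
        _ ≤ k * w := Nat.mul_le_mul_right _ (by simpa using Finset.card_le_univ S)
        _ = R := by rw [hR, mul_comm]
    -- lower bound
    have hlow : (2 : ℝ) ^ (b * n + 1) ≤ ∑ a ∈ Finset.univ.image F, ∏ j, z ^ (a j).natAbs := by
      rw [Finset.sum_image hinj.injOn]
      have h1 : ∀ S : Finset (Fin k), (1 / 2 : ℝ) ^ (b * n + 1) ≤ ∏ j, z ^ (F S j).natAbs := by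
        intro S
        rw [Finset.prod_pow_eq_pow_sum]
        calc (1 / 2 : ℝ) ^ (b * n + 1) ≤ (z ^ (2 * w)) ^ (b * n + 1) :=
              pow_le_pow_left₀ (by norm_num) (pow_bernoulli w hw) _
          _ = z ^ R := by
              rw [← pow_mul, hR, hk]
              congr 1
              ring
          _ ≤ z ^ (∑ j, (F S j).natAbs) := pow_le_pow_of_le_one hz0.le hz1.le (hnorm S)
      calc (2 : ℝ) ^ (b * n + 1) = ∑ S : Finset (Fin k), (1 / 2 : ℝ) ^ (b * n + 1) := by
            rw [Finset.sum_const, Finset.card_univ, Fintype.card_finset, Fintype.card_fin,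
              nsmul_eq_mul, hk, pow_mul]
            push_cast
            rw [← mul_pow]
            norm_num
        _ ≤ _ := Finset.sum_le_sum fun S _ => h1 S
    -- upper bound
    have hup : ∑ a ∈ Finset.univ.image F, ∏ j, z ^ (a j).natAbs ≤ (2 : ℝ) ^ (b * n) := by
      have hsub : Finset.univ.image F ⊆
          Fintype.piFinset (fun _ : Fin n => Finset.Icc (-(R : ℤ)) R) := by
        intro a ha
        obtain ⟨S, -, rfl⟩ := Finset.mem_image.1 ha
        rw [Fintype.mem_piFinset]
        intro j
        have h1 : (F S j).natAbs ≤ R := by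
          refine le_trans ?_ (hnorm S)
          exact Finset.single_le_sum (f := fun j => (F S j).natAbs) (fun _ _ => Nat.zero_le _)
            (Finset.mem_univ j)
        rw [Finset.mem_Icc]
        omega
      calc _ ≤ ∑ a ∈ Fintype.piFinset (fun _ : Fin n => Finset.Icc (-(R : ℤ)) R),
              ∏ j, z ^ (a j).natAbs :=
            Finset.sum_le_sum_of_subset_of_nonneg hsub fun a _ _ =>
              Finset.prod_nonneg fun j _ => pow_nonneg hz0.le _
        _ = ∏ _j : Fin n, ∑ t ∈ Finset.Icc (-(R : ℤ)) R, z ^ t.natAbs := by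
            rw [Finset.prod_univ_sum]
        _ ≤ ∏ _j : Fin n, (2 : ℝ) ^ b := by
            apply Finset.prod_le_prod
            · intro j _
              exact Finset.sum_nonneg fun t _ => pow_nonneg hz0.le _
            · intro j _
              refine (sum_box z hz0.le hz1 R).trans ?_
              have e1 : 2 / (1 - z) = 8 * w := by
                rw [hz]
                field_simp
                ring
              rw [e1]
              exact_mod_cast hb
        _ = (2 : ℝ) ^ (b * n) := by
            rw [Finset.prod_const, Finset.card_univ, Fintype.card_fin, ← pow_mul]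
    have h3 := hlow.trans hup
    have h4 : (2 : ℝ) ^ (b * n) < 2 ^ (b * n + 1) :=
      pow_lt_pow_right₀ (by norm_num) (Nat.lt_succ_self _)
    linarith
  unfold Function.Injective at hF
  push Not at hF
  obtain ⟨S, S', hSS, hne⟩ := hF
  refine ⟨fun i => (if i ∈ S then 1 else 0) - (if i ∈ S' then 1 else 0), ?_, ?_, ?_⟩
  · intro i
    dsimp only
    split_ifs <;> simp
  · by_contra hcon
    push Not at hcon
    apply hne
    ext i
    have := hcon i
    split_ifs at this with h1 h2 h2
    · exact ⟨fun _ => h2, fun _ => h1⟩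
    · norm_num at this
    · norm_num at this
    · exact ⟨fun h => absurd h h1, fun h => absurd h h2⟩
  · intro j
    have h1 := congrFun hSS j
    simp only [F] at h1
    simp only [sub_mul, ite_mul, one_mul, zero_mul, Finset.sum_sub_distrib,
      Finset.sum_ite_mem, Finset.univ_inter]
    rw [h1, sub_self]

end Pool.Agent.H81.TS
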