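import Mathlib

/-!
# Linear decision trees and 3SUM: the definitions
-/

set_option autoImplicit false

namespace Pool.Agent.H81.TS

/-- the value of an integer form at a list of real numbers -/
noncomputable def value {n : ℕ} (a : Fin n → ℤ) (x : Fin n → ℝ) : ℝ := ∑ i, (a i : ℝ) * x i

/-- A linear decision tree for `n` real numbers with answers in `α`. A node tests the sign of the
form `∑ i, a i * x i` with integer coefficients and has three children. -/
inductive Tree (n : ℕ) (α : Type) : Type
  | leaf (answer : α) : Tree n α
  | node (a : Fin n → ℤ) (negative zero positive : Tree n α) : Tree n α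

/-- the answer on the input `x` -/
noncomputable def Tree.run {n : ℕ} {α : Type} (x : Fin n → ℝ) : Tree n α → α
  | .leaf r => r
  | .node a neg zer pos =>
      if value a x < 0 then neg.run x else if value a x = 0 then zer.run x else pos.run x

/-- the largest number of tests on a branch -/
def Tree.depth {n : ℕ} {α : Type} : Tree n α → ℕ
  | .leaf _ => 0
  | .node _ neg zer pos => 1 + max neg.depth (max zer.depth pos.depth)

/-- the forms which are tested at the nodes -/
def Tree.tests {n : ℕ} {α : Type} : Tree n α → Set (Fin n → ℤ)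
  | .leaf _ => ∅
  | .node a neg zer pos => {a} ∪ neg.tests ∪ zer.tests ∪ pos.tests

/-- one of the numbers is the sum of two others -/
def HasSum3 {n : ℕ} (x : Fin n → ℝ) : Prop :=
  ∃ i j k, i ≠ j ∧ i ≠ k ∧ j ≠ k ∧ x i + x j = x k

/-- the forms `x i + x j - x k` for different `i`, `j`, `k` -/
def sumForms (n : ℕ) : Finset (Fin n → ℤ) :=
  ((Finset.univ : Finset (Fin n × Fin n × Fin n)).filter fun q =>
    q.1 ≠ q.2.1 ∧ q.1 ≠ q.2.2 ∧ q.2.1 ≠ q.2.2).image fun q =>
      Pi.single q.1 1 + Pi.single q.2.1 1 - Pi.single q.2.2 1

end Pool.Agent.H81.TS
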