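import Pool.Agent.H81.TS.Defs
import Pool.Agent.H81.TS.Collide

/-!
# The hypothesis `Compress` for integer forms
-/

set_option autoImplicit false

open Finset Set

namespace Pool.Agent.H81.TS

/-- greedy choice of a small subset -/
theorem greedy {J : Type} [DecidableEq J] (S0 : Finset J) (f : J → ℝ) (F : Finset J → J → Prop)
    (k : ℕ) (hmono : ∀ T T' : Finset J, ∀ a, T ⊆ T' → F T a → F T' a)
    (hself : ∀ T : Finset J, ∀ a ∈ T, a ∈ S0 → F T a)
    (hchain : ∀ t : ℕ → J, (∀ i ≤ k, t i ∈ S0) →
      (∀ i j, i ≤ j → j ≤ k → f (t i) ≤ f (t j)) →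
      ∃ i ≤ k, F ((Finset.range i).image t) (t i)) :
    ∃ T ⊆ S0, T.card ≤ k ∧ ∀ s ∈ S0, F T s := by
  rcases S0.eq_empty_or_nonempty with h0 | ⟨a0, -⟩
  · subst h0
    exact ⟨∅, le_rfl, by simp, by simp⟩
  have main : ∀ S : Finset J, S ⊆ S0 → ∃ (t : ℕ → J) (r : ℕ), (∀ i < r, t i ∈ S) ∧
      (∀ i j, i ≤ j → j < r → f (t i) ≤ f (t j)) ∧
      (∀ i < r, ¬ F ((Finset.range i).image t) (t i)) ∧
      ∀ s ∈ S, F ((Finset.range r).image t) s := by
    intro S
    induction S using Finset.induction_on_max_value f with
    | empty => exact fun _ => ⟨fun _ => a0, 0, by simp, by simp, by simp, by simp⟩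
    | insert a s has hmax ih =>
      intro hS
      obtain ⟨t, r, h1, h2, h3, h4⟩ := ih ((Finset.subset_insert _ _).trans hS)
      by_cases hF : F ((Finset.range r).image t) a
      · refine ⟨t, r, fun i hi => Finset.mem_insert_of_mem (h1 i hi), h2, h3, ?_⟩
        intro b hb
        rcases Finset.mem_insert.1 hb with rfl | hb
        · exact hF
        · exact h4 b hb
      · have him : ∀ i ≤ r, (Finset.range i).image (Function.update t r a) =
            (Finset.range i).image t := by
          intro i hi
          apply Finset.image_congr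
          intro j hj
          have : j ≠ r := by
            rw [Finset.mem_coe, Finset.mem_range] at hj
            omega
          exact Function.update_of_ne this _ _
        refine ⟨Function.update t r a, r + 1, ?_, ?_, ?_, ?_⟩
        · intro i hi
          by_cases hir : i = r
          · subst hir
            rw [Function.update_self]
            exact Finset.mem_insert_self _ _
          · rw [Function.update_of_ne hir]
            exact Finset.mem_insert_of_mem (h1 i (by omega))
        · intro i j hij hj
          by_cases hjr : j = r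
          · subst hjr
            rw [Function.update_self]
            by_cases hir : i = j
            · subst hir
              rw [Function.update_self]
            · rw [Function.update_of_ne hir]
              exact hmax _ (h1 i (by omega))
          · rw [Function.update_of_ne hjr, Function.update_of_ne (by omega)]
            exact h2 i j hij (by omega)
        · intro i hi
          rw [him i (by omega)]
          by_cases hir : i = r
          · subst hir
            rw [Function.update_self]
            exact hF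
          · rw [Function.update_of_ne hir]
            exact h3 i (by omega)
        · intro b hb
          have hsub : insert a ((Finset.range r).image t) ⊆
              (Finset.range (r + 1)).image (Function.update t r a) := by
            intro c hc
            rw [Finset.mem_image]
            rcases Finset.mem_insert.1 hc with rfl | hc
            · exact ⟨r, Finset.mem_range.2 (by omega), Function.update_self _ _ _⟩
            · obtain ⟨i, hi, rfl⟩ := Finset.mem_image.1 hc
              rw [Finset.mem_range] at hi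
              exact ⟨i, Finset.mem_range.2 (by omega), Function.update_of_ne (by omega) _ _⟩
          rcases Finset.mem_insert.1 hb with rfl | hb
          · exact hself _ _ (hsub (Finset.mem_insert_self _ _)) (hS (Finset.mem_insert_self _ _))
          · exact hmono _ _ b ((Finset.subset_insert _ _).trans hsub) (h4 b hb)
  obtain ⟨t, r, h1, h2, h3, h4⟩ := main S0 le_rfl
  have hr : r ≤ k := by
    by_contra hcon
    rw [not_le] at hcon
    obtain ⟨i, hi, hF⟩ := hchain t (fun i hi => h1 i (by omega))
      (fun i j hij hj => h2 i j hij (by omega))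
    exact h3 i (by omega) hF
  refine ⟨(Finset.range r).image t, ?_, ?_, h4⟩
  · intro c hc
    obtain ⟨i, hi, rfl⟩ := Finset.mem_image.1 hc
    exact h1 i (Finset.mem_range.1 hi)
  · refine Finset.card_image_le.trans ?_
    rw [Finset.card_range]
    exact hr

variable {J : Type} {n : ℕ}

/-- the values of a family of integer forms -/
noncomputable def V (g : J → Fin n → ℤ) (j : J) (x : Fin n → ℝ) : ℝ := value (g j) x

theorem sum_zero_of_rel {k : ℕ} (ε : Fin k → ℤ) (c : Fin k → Fin n → ℤ)
    (h : ∀ j, ∑ i, ε i * c i j = 0) (y : Fin n → ℝ) : ∑ i, (ε i : ℝ) * value (c i) y = 0 := by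
  unfold value
  simp only [Finset.mul_sum]
  rw [Finset.sum_comm]
  apply Finset.sum_eq_zero
  intro j _
  have h1 : ((∑ i, ε i * c i j : ℤ) : ℝ) = 0 := by rw [h j]; simp
  push_cast at h1
  calc ∑ i, (ε i : ℝ) * ((c i j : ℝ) * y j) = (∑ i, (ε i : ℝ) * (c i j : ℝ)) * y j := by
        rw [Finset.sum_mul]
        apply Finset.sum_congr rfl
        intro i _
        ring
    _ = 0 := by rw [h1, zero_mul]

/-- the last term of a relation with coefficients `0`, `1`, `-1` -/
theorem last_term {k : ℕ} (ε : Fin k → ℤ) (h01 : ∀ i, ε i = 0 ∨ ε i = 1 ∨ ε i = -1)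
    (hne : ∃ i, ε i ≠ 0) :
    ∃ p < k, ∀ d : ℕ → ℝ, ∑ i : Fin k, (ε i : ℝ) * d i = 0 →
      |d p| ≤ ∑ i ∈ Finset.range p, |d i| := by
  classical
  let e : ℕ → ℝ := fun i => if h : i < k then (ε ⟨i, h⟩ : ℝ) else 0
  have he : ∀ i, |e i| ≤ 1 := by
    intro i
    simp only [e]
    split_ifs with h
    · rcases h01 ⟨i, h⟩ with h' | h' | h' <;> rw [h'] <;> simp
    · simp
  have hS : ((Finset.range k).filter fun i => e i ≠ 0).Nonempty := by
    obtain ⟨i, hi⟩ := hne
    refine ⟨i, Finset.mem_filter.2 ⟨Finset.mem_range.2 i.2, ?_⟩⟩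
    simp only [e, i.2, dif_pos, Fin.eta]
    exact_mod_cast hi
  set p := ((Finset.range k).filter fun i => e i ≠ 0).max' hS with hp
  have hpm := Finset.max'_mem _ hS
  rw [← hp, Finset.mem_filter, Finset.mem_range] at hpm
  have hmax : ∀ i, p < i → e i = 0 := by
    intro i hi
    by_contra h
    by_cases hik : i < k
    · have h' : i ∈ (Finset.range k).filter fun i => e i ≠ 0 :=
        Finset.mem_filter.2 ⟨Finset.mem_range.2 hik, h⟩
      have := Finset.le_max' _ i h'
      rw [← hp] at this
      omega
    · apply h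
      simp only [e, hik, dif_neg, not_false_eq_true]
  refine ⟨p, hpm.1, fun d hd => ?_⟩
  have h1 : ∑ i ∈ Finset.range k, e i * d i = 0 := by
    rw [Finset.sum_range, ← hd]
    apply Finset.sum_congr rfl
    intro i _
    simp only [e, i.2, dif_pos, Fin.eta]
  have h2 : ∑ i ∈ Finset.range (p + 1), e i * d i = 0 := by
    rw [← h1]
    apply Finset.sum_subset
    · intro i hi
      rw [Finset.mem_range] at hi ⊢
      omega
    · intro i _ hi
      rw [Finset.mem_range, not_lt] at hi
      rw [hmax i (by omega), zero_mul]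
  rw [Finset.sum_range_succ] at h2
  have h3 : |e p| = 1 := by
    have h4 := hpm.2
    simp only [e, hpm.1, dif_pos] at h4 ⊢
    rcases h01 ⟨p, hpm.1⟩ with h' | h' | h'
    · rw [h'] at h4
      simp at h4
    · rw [h']
      simp
    · rw [h']
      simp
  calc |d p| = |e p * d p| := by rw [abs_mul, h3, one_mul]
    _ = |∑ i ∈ Finset.range p, e i * d i| := by
        rw [← abs_neg]
        congr 1
        linarith
    _ ≤ ∑ i ∈ Finset.range p, |e i * d i| := Finset.abs_sum_le_sum_abs _ _
    _ ≤ ∑ i ∈ Finset.range p, |d i| := by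
        apply Finset.sum_le_sum
        intro i _
        rw [abs_mul]
        calc |e i| * |d i| ≤ 1 * |d i| := mul_le_mul_of_nonneg_right (he i) (abs_nonneg _)
          _ = |d i| := one_mul _

theorem value_zero (y : Fin n → ℝ) : value (0 : Fin n → ℤ) y = 0 := by
  unfold value
  simp

theorem value_sub (a c : Fin n → ℤ) (y : Fin n → ℝ) :
    value (fun j => a j - c j) y = value a y - value c y := by
  unfold value
  rw [← Finset.sum_sub_distrib]
  apply Finset.sum_congr rfl
  intro j _
  push_cast
  ring

variable [DecidableEq J]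

theorem pos_class (g : J → Fin n → ℤ) (o : J) (ho : g o = 0) (w b k : ℕ) (hw0 : 0 < w)
    (hb : 8 * w ≤ 2 ^ b) (hk : k = 2 * (b * n + 1))
    (hw : ∀ p q, ∑ j, (g p j - g q j).natAbs ≤ w) (x : Fin n → ℝ) (S : Finset J)
    (hS : ∀ s ∈ S, 0 < V g s x) :
    ∃ T ⊆ S, T.card ≤ k ∧ ∀ s ∈ S, ∀ y ∈ Know (V g) (insert o T) x, 0 < V g s y := by
  have hVo : ∀ y, V g o y = 0 := fun y => by unfold V; rw [ho]; exact value_zero y
  have hmemo : ∀ T : Finset J, ∀ a ∈ T, 0 < V g a x → ∀ y ∈ Know (V g) (insert o T) x,
      0 < V g a y := by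
    intro T a ha hax y hy
    have h1 := hy a (Finset.mem_insert_of_mem ha) o (Finset.mem_insert_self _ _)
    have h2 : sg (V g) a o x = 1 := sg_pos_iff.2 (by rw [hVo]; exact hax)
    rw [h2, sg_pos_iff, hVo] at h1
    exact h1
  apply greedy S (fun j => V g j x) (fun T a => ∀ y ∈ Know (V g) (insert o T) x, 0 < V g a y) k
  · intro T T' a hTT h y hy
    exact h y (Know.anti (Finset.insert_subset_insert _ hTT) x hy)
  · intro T a ha haS
    exact hmemo T a ha (hS a haS)
  · intro t ht hsort
    obtain ⟨ε, h01, hne, hrel⟩ := collision n w b k hw0 hb hk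
      (fun i j => g (t (i + 1)) j - g (t i) j) (fun i => hw _ _)
    obtain ⟨p, hpk, hp⟩ := last_term ε h01 hne
    refine ⟨p + 1, by omega, ?_⟩
    intro y hy
    have hmem : ∀ i ≤ p, t i ∈ insert o ((Finset.range (p + 1)).image t) := fun i hi =>
      Finset.mem_insert_of_mem (Finset.mem_image_of_mem _ (Finset.mem_range.2 (by omega)))
    have h1 := hp (fun i => V g (t (i + 1)) y - V g (t i) y) (by
      rw [← sum_zero_of_rel ε _ hrel y]
      apply Finset.sum_congr rfl
      intro i _
      rw [value_sub]
      rfl)
    have h2 : ∀ i < p, 0 ≤ V g (t (i + 1)) y - V g (t i) y := by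
      intro i hi
      have h3 := hy _ (hmem (i + 1) (by omega)) _ (hmem i (by omega))
      by_contra hcon
      have h4 : V g (t (i + 1)) y < V g (t i) y := by linarith
      rw [sg_neg_iff.2 h4] at h3
      have h5 := sg_neg_iff.1 h3.symm
      have h6 := hsort i (i + 1) (by omega) (by omega)
      linarith
    have h3 : ∑ i ∈ Finset.range p, |V g (t (i + 1)) y - V g (t i) y| =
        V g (t p) y - V g (t 0) y := by
      rw [← Finset.sum_range_sub (fun i => V g (t i) y)]
      apply Finset.sum_congr rfl
      intro i hi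
      exact abs_of_nonneg (h2 i (Finset.mem_range.1 hi))
    rw [h3] at h1
    have h4 : 0 < V g (t 0) y := hmemo ((Finset.range (p + 1)).image t) (t 0)
      (Finset.mem_image_of_mem _ (Finset.mem_range.2 (by omega))) (hS _ (ht 0 (by omega))) y hy
    have h5 := (abs_le.1 h1).1
    show 0 < V g (t (p + 1)) y
    linarith

theorem zero_class (g : J → Fin n → ℤ) (o : J) (ho : g o = 0) (w b k : ℕ) (hw0 : 0 < w)
    (hb : 8 * w ≤ 2 ^ b) (hk : k = 2 * (b * n + 1))
    (hw : ∀ p q, ∑ j, (g p j - g q j).natAbs ≤ w) (x : Fin n → ℝ) (S : Finset J)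
    (hS : ∀ s ∈ S, V g s x = 0) :
    ∃ T ⊆ S, T.card ≤ k ∧ ∀ s ∈ S, ∀ y ∈ Know (V g) (insert o T) x, V g s y = 0 := by
  have hVo : ∀ y, V g o y = 0 := fun y => by unfold V; rw [ho]; exact value_zero y
  have hmemo : ∀ T : Finset J, ∀ a ∈ T, V g a x = 0 → ∀ y ∈ Know (V g) (insert o T) x,
      V g a y = 0 := by
    intro T a ha hax y hy
    have h1 := hy a (Finset.mem_insert_of_mem ha) o (Finset.mem_insert_self _ _)
    have h2 : sg (V g) a o x = 0 := sg_zero_iff.2 (by rw [hVo]; exact hax)
    rw [h2, sg_zero_iff, hVo] at h1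
    exact h1
  apply greedy S (fun _ => 0) (fun T a => ∀ y ∈ Know (V g) (insert o T) x, V g a y = 0) k
  · intro T T' a hTT h y hy
    exact h y (Know.anti (Finset.insert_subset_insert _ hTT) x hy)
  · intro T a ha haS
    exact hmemo T a ha (hS a haS)
  · intro t ht _
    obtain ⟨ε, h01, hne, hrel⟩ := collision n w b k hw0 hb hk
      (fun i j => g (t i) j) (fun i => by
        have := hw (t i) o
        rw [ho] at this
        simpa using this)
    obtain ⟨p, hpk, hp⟩ := last_term ε h01 hne
    refine ⟨p, by omega, ?_⟩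
    intro y hy
    have h1 := hp (fun i => V g (t i) y) (by
      rw [← sum_zero_of_rel ε _ hrel y]
      rfl)
    have h3 : ∑ i ∈ Finset.range p, |V g (t i) y| = 0 := by
      apply Finset.sum_eq_zero
      intro i hi
      have h4 : V g (t i) y = 0 := hmemo ((Finset.range p).image t) (t i)
        (Finset.mem_image_of_mem _ hi)
        (hS _ (ht i (by have := Finset.mem_range.1 hi; omega))) y hy
      rw [h4, abs_zero]
    rw [h3] at h1
    exact abs_eq_zero.1 (le_antisymm h1 (abs_nonneg _))

theorem compress_forms (g : J → Fin n → ℤ) (o : J) (ho : g o = 0) (w b : ℕ) (hw0 : 0 < w)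
    (hb : 8 * w ≤ 2 ^ b) (hw : ∀ p q, ∑ j, (g p j - g q j).natAbs ≤ w) :
    Compress (V g) o (6 * (b * n + 1)) := by
  classical
  intro x S
  have hneg : ∀ j y, V (fun j i => -g j i) j y = -V g j y := by
    intro j y
    unfold V value
    rw [← Finset.sum_neg_distrib]
    apply Finset.sum_congr rfl
    intro i _
    push_cast
    ring
  obtain ⟨T1, hT1, hc1, h1⟩ := pos_class g o ho w b _ hw0 hb rfl hw x
    (S.filter fun s => 0 < V g s x) (fun s hs => (Finset.mem_filter.1 hs).2)
  obtain ⟨T2, hT2, hc2, h2⟩ := pos_class (fun j i => -g j i) o (by rw [ho]; simp; rfl) w b _ hw0 hb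
    rfl (fun p q => by
      have := hw q p
      refine le_trans (le_of_eq ?_) this
      apply Finset.sum_congr rfl
      intro j _
      congr 1
      ring) x
    (S.filter fun s => V g s x < 0) (fun s hs => by
      rw [hneg]
      have := (Finset.mem_filter.1 hs).2
      linarith)
  obtain ⟨T3, hT3, hc3, h3⟩ := zero_class g o ho w b _ hw0 hb rfl hw x
    (S.filter fun s => V g s x = 0) (fun s hs => (Finset.mem_filter.1 hs).2)
  refine ⟨T1 ∪ T2 ∪ T3, ?_, ?_, ?_⟩
  · refine Finset.union_subset (Finset.union_subset ?_ ?_) ?_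
    · exact hT1.trans (Finset.filter_subset _ _)
    · exact hT2.trans (Finset.filter_subset _ _)
    · exact hT3.trans (Finset.filter_subset _ _)
  · have e1 := Finset.card_union_le (T1 ∪ T2) T3
    have e2 := Finset.card_union_le T1 T2
    omega
  · intro s hs y hy
    have m1 : T1 ⊆ T1 ∪ T2 ∪ T3 := Finset.subset_union_left.trans Finset.subset_union_left
    have m2 : T2 ⊆ T1 ∪ T2 ∪ T3 := Finset.subset_union_right.trans Finset.subset_union_left
    have m3 : T3 ⊆ T1 ∪ T2 ∪ T3 := Finset.subset_union_right
    rcases lt_trichotomy (V g s x) 0 with hlt | heq | hgt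
    · have hy2 : y ∈ Know (V fun j i => -g j i) (insert o T2) x := by
        intro p hp q hq
        have := Know.anti (Finset.insert_subset_insert o m2) x hy p hp q hq
        unfold sg at this ⊢
        have e1 : V (fun j i => -g j i) p y - V (fun j i => -g j i) q y =
            -(V g p y - V g q y) := by rw [hneg, hneg]; ring
        have e2 : V (fun j i => -g j i) p x - V (fun j i => -g j i) q x =
            -(V g p x - V g q x) := by rw [hneg, hneg]; ring
        rw [e1, e2, Left.sign_neg, Left.sign_neg, this]
      have h4 := h2 s (Finset.mem_filter.2 ⟨hs, hlt⟩) y hy2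
      rw [hneg] at h4
      have h5 : V g s y < 0 := by linarith
      rw [sign_neg hlt, sign_neg h5]
    · rw [heq, h3 s (Finset.mem_filter.2 ⟨hs, heq⟩) y
        (Know.anti (Finset.insert_subset_insert o m3) x hy)]
    · rw [sign_pos hgt, sign_pos (h1 s (Finset.mem_filter.2 ⟨hs, hgt⟩) y
        (Know.anti (Finset.insert_subset_insert o m1) x hy))]

end Pool.Agent.H81.TS
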