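import Pool.Agent.H81.TS.Search

/-!
# Random samples and the main recursion

`Know v T x`: the inputs with the same results of all comparisons of elements of `T` as `x`.
The hypothesis `Compress v o D`: for every input `x` every set of forms contains a set of at most `D`
forms whose comparisons (with each other and with the zero form `o`) at `x` imply the signs of all
forms of the set. Then `O (D log |J|)` comparisons and twice the information theoretic bound are
enough to find the signs of all forms.
-/

set_option autoImplicit false

open Finset Set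

namespace Pool.Agent.H81.TS

variable {J E : Type}

/-- the inputs which are not distinguished from `x` by comparisons of elements of `T` -/
def Know (v : J → E → ℝ) (T : Finset J) (x : E) : Set E :=
  {y | ∀ p ∈ T, ∀ q ∈ T, sg v p q y = sg v p q x}

theorem Know.anti {v : J → E → ℝ} {S T : Finset J} (h : S ⊆ T) (x : E) :
    Know v T x ⊆ Know v S x := fun _ hy p hp q hq => hy p (h hp) q (h hq)

theorem Know.eq_of_mem {v : J → E → ℝ} {T : Finset J} {x y : E} (h : y ∈ Know v T x) :
    Know v T y = Know v T x := by
  ext z
  constructor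
  · intro hz p hp q hq
    rw [hz p hp q hq, h p hp q hq]
  · intro hz p hp q hq
    rw [hz p hp q hq, h p hp q hq]

variable [DecidableEq J]

/-- small subsets which carry the signs of all elements of a set -/
def Compress (v : J → E → ℝ) (o : J) (D : ℕ) : Prop :=
  ∀ x : E, ∀ S : Finset J, ∃ T ⊆ S, T.card ≤ D ∧
    ∀ s ∈ S, ∀ y ∈ Know v (insert o T) x, SignType.sign (v s y) = SignType.sign (v s x)

open Classical in
/-- the elements of `U` whose signs at `x` follow from the comparisons of elements of `T` -/
noncomputable def Inf (v : J → E → ℝ) (o : J) (T : Finset J) (x : E) (U : Finset J) : Finset J :=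
  U.filter fun j => ∀ y ∈ Know v (insert o T) x, SignType.sign (v j y) = SignType.sign (v j x)

theorem Inf_subset {v : J → E → ℝ} {o : J} {T : Finset J} {x : E} {U : Finset J} :
    Inf v o T x U ⊆ U := by
  classical
  unfold Inf
  exact Finset.filter_subset _ _

theorem mem_Inf {v : J → E → ℝ} {o : J} {T : Finset J} {x : E} {U : Finset J} {j : J} :
    j ∈ Inf v o T x U ↔
      j ∈ U ∧ ∀ y ∈ Know v (insert o T) x, SignType.sign (v j y) = SignType.sign (v j x) := by
  classical
  unfold Inf
  rw [Finset.mem_filter]

theorem Inf_mono {v : J → E → ℝ} {o : J} {S T : Finset J} (h : S ⊆ T) {x : E} {U : Finset J} :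
    Inf v o S x U ⊆ Inf v o T x U := by
  intro j hj
  rw [mem_Inf] at hj ⊢
  exact ⟨hj.1, fun y hy => hj.2 y (Know.anti (Finset.insert_subset_insert _ h) x hy)⟩

theorem Inf_congr {v : J → E → ℝ} {o : J} {T : Finset J} {x y : E} {U : Finset J}
    (h : y ∈ Know v (insert o T) x) : Inf v o T y U = Inf v o T x U := by
  ext j
  rw [mem_Inf, mem_Inf, Know.eq_of_mem h]
  constructor
  · rintro ⟨h1, h2⟩
    refine ⟨h1, fun z hz => ?_⟩
    rw [h2 z hz, h2 x (fun p _ q _ => rfl)]
  · rintro ⟨h1, h2⟩
    refine ⟨h1, fun z hz => ?_⟩
    rw [h2 z hz, h2 y h]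

/-- the number of samples from which few signs follow -/
theorem count_bad {v : J → E → ℝ} {o : J} {D : ℕ} (hD : Compress v o D) (x : E) (U : Finset J)
    (m : ℕ) (hm : D ≤ m) :
    Nat.card {s : Fin m → U //
      8 * (Inf v o (Finset.univ.image fun i => (s i : J)) x U).card < U.card} * 8 ^ (m - D) ≤
      2 ^ m * U.card ^ m := by
  classical
  -- the samples for a set of places
  let A : Finset (Fin m) → Finset (Fin m → U) := fun T => Finset.univ.filter fun s =>
    (∀ j, j ∉ T → (s j : J) ∈ Inf v o (T.image fun i => (s i : J)) x U) ∧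
      8 * (Inf v o (T.image fun i => (s i : J)) x U).card < U.card
  have hA : ∀ T : Finset (Fin m), (A T).card * 8 ^ (m - T.card) ≤ U.card ^ m := by
    intro T
    let e := Equiv.piEquivPiSubtypeProd (fun i : Fin m => i ∈ T) (fun _ => (U : Type))
    let I : ({i // i ∈ T} → U) → Finset J := fun a =>
      Inf v o (Finset.univ.image fun i => (a i : J)) x U
    let B : Finset (({i // i ∈ T} → U) × ({i // ¬ i ∈ T} → U)) := Finset.univ.filter fun p =>
      (∀ j, (p.2 j : J) ∈ I p.1) ∧ 8 * (I p.1).card < U.card
    have hI : ∀ s : Fin m → U, (T.image fun i => (s i : J)) =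
        Finset.univ.image fun i : {i // i ∈ T} => ((e s).1 i : J) := by
      intro s
      ext j
      simp only [Finset.mem_image, Finset.mem_univ, true_and]
      constructor
      · rintro ⟨i, hi, rfl⟩
        exact ⟨⟨i, hi⟩, rfl⟩
      · rintro ⟨i, rfl⟩
        exact ⟨i, i.2, rfl⟩
    have h1 : (A T).card ≤ B.card := by
      apply Finset.card_le_card_of_injOn e
      · intro s hs
        have hs' := (Finset.mem_filter.1 hs).2
        rw [hI s] at hs'
        simp only [B, Finset.coe_filter, Finset.mem_univ, true_and, Set.mem_ofPred_eq]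
        exact ⟨fun j => hs'.1 j.1 j.2, hs'.2⟩
      · exact e.injective.injOn
    have h2 : B.card * 8 ^ (m - T.card) ≤ U.card ^ m := by
      have h3 : B.card = ∑ a : {i // i ∈ T} → U,
          (Finset.univ.filter fun b : {i // ¬ i ∈ T} → U =>
            (∀ j, (b j : J) ∈ I a) ∧ 8 * (I a).card < U.card).card := by
        simp only [B, Finset.card_filter, ← Finset.univ_product_univ, Finset.sum_product]
      have h4 : ∀ a : {i // i ∈ T} → U,
          (Finset.univ.filter fun b : {i // ¬ i ∈ T} → U =>
            (∀ j, (b j : J) ∈ I a) ∧ 8 * (I a).card < U.card).card * 8 ^ (m - T.card) ≤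
              U.card ^ (m - T.card) := by
        intro a
        by_cases ha : 8 * (I a).card < U.card
        · have hc : Fintype.card {i // ¬ i ∈ T} = m - T.card := by
            rw [Fintype.card_subtype_compl, Fintype.card_fin, Fintype.card_coe]
          have h5 : (Finset.univ.filter fun b : {i // ¬ i ∈ T} → U =>
              (∀ j, (b j : J) ∈ I a) ∧ 8 * (I a).card < U.card).card ≤
                (I a).card ^ (m - T.card) := by
            have h6 : (I a).card ^ (m - T.card) =
                (Finset.univ : Finset ({i // ¬ i ∈ T} → I a)).card := by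
              rw [Finset.card_univ, Fintype.card_fun, hc, Fintype.card_coe]
            rw [h6]
            apply Finset.card_le_card_of_surjOn
              (fun (b : {i // ¬ i ∈ T} → I a) (j : {i // ¬ i ∈ T}) =>
                (⟨(b j : J), Inf_subset (b j).2⟩ : U))
            intro b hb
            have hb' := (Finset.mem_filter.1 hb).2.1
            refine ⟨fun j => ⟨(b j : J), hb' j⟩, Finset.mem_coe.2 (Finset.mem_univ _), ?_⟩
            funext j
            rfl
          calc _ ≤ (I a).card ^ (m - T.card) * 8 ^ (m - T.card) := Nat.mul_le_mul_right _ h5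
            _ = (8 * (I a).card) ^ (m - T.card) := by rw [← mul_pow, mul_comm]
            _ ≤ U.card ^ (m - T.card) := Nat.pow_le_pow_left ha.le _
        · have h5 : (Finset.univ.filter fun b : {i // ¬ i ∈ T} → U =>
              (∀ j, (b j : J) ∈ I a) ∧ 8 * (I a).card < U.card).card = 0 := by
            rw [Finset.card_eq_zero, Finset.filter_eq_empty_iff]
            intro b _ hb
            exact ha hb.2
          rw [h5, zero_mul]
          exact Nat.zero_le _
      rw [h3, Finset.sum_mul]
      calc _ ≤ ∑ a : {i // i ∈ T} → U, U.card ^ (m - T.card) := Finset.sum_le_sum fun a _ => h4 a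
        _ = U.card ^ T.card * U.card ^ (m - T.card) := by
            rw [Finset.sum_const, Finset.card_univ, Fintype.card_fun, Fintype.card_coe,
              Fintype.card_coe, smul_eq_mul]
        _ = U.card ^ m := by
            rw [← pow_add]
            congr 1
            have : T.card ≤ m := by simpa using Finset.card_le_univ T
            omega
    exact (Nat.mul_le_mul_right _ h1).trans h2
  -- every bad sample belongs to one of these sets
  set B : Finset (Fin m → U) := Finset.univ.filter fun s =>
    8 * (Inf v o (Finset.univ.image fun i => (s i : J)) x U).card < U.card with hB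
  have hsub : B ⊆ ((Finset.univ : Finset (Finset (Fin m))).filter fun T => T.card ≤ D).biUnion A := by
    intro s hs
    rw [hB, Finset.mem_filter] at hs
    obtain ⟨T0, hT0, hTc, hTs⟩ := hD x (Finset.univ.image fun i => (s i : J))
    have hex : ∀ t : J, t ∈ T0 → ∃ i : Fin m, (s i : J) = t := by
      intro t ht
      obtain ⟨i, -, hi⟩ := Finset.mem_image.1 (hT0 ht)
      exact ⟨i, hi⟩
    choose f hf using hex
    let T : Finset (Fin m) := T0.attach.image fun t => f t.1 t.2
    have hT : (T.image fun i => (s i : J)) = T0 := by
      ext j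
      simp only [T, Finset.mem_image, Finset.mem_attach, true_and]
      constructor
      · rintro ⟨i, ⟨t, rfl⟩, rfl⟩
        rw [hf]
        exact t.2
      · intro hj
        exact ⟨f j hj, ⟨⟨j, hj⟩, rfl⟩, hf j hj⟩
    have hTcard : T.card ≤ D := by
      refine (Finset.card_image_le.trans ?_)
      rw [Finset.card_attach]
      exact hTc
    rw [Finset.mem_biUnion]
    refine ⟨T, Finset.mem_filter.2 ⟨Finset.mem_univ _, hTcard⟩, ?_⟩
    simp only [A, Finset.mem_filter, Finset.mem_univ, true_and]
    rw [hT]
    constructor
    · intro j _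
      rw [mem_Inf]
      exact ⟨(s j).2, fun y hy => hTs _ (Finset.mem_image_of_mem _ (Finset.mem_univ _)) y hy⟩
    · refine lt_of_le_of_lt (Nat.mul_le_mul_left _ (Finset.card_le_card (Inf_mono hT0))) hs.2
  have hcard : Nat.card {s : Fin m → U //
      8 * (Inf v o (Finset.univ.image fun i => (s i : J)) x U).card < U.card} = B.card := by
    rw [Nat.card_eq_fintype_card, Fintype.card_subtype]
  rw [hcard]
  calc B.card * 8 ^ (m - D)
      ≤ (∑ T ∈ (Finset.univ : Finset (Finset (Fin m))).filter (fun T => T.card ≤ D), (A T).card) *
          8 ^ (m - D) :=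
        Nat.mul_le_mul_right _ ((Finset.card_le_card hsub).trans Finset.card_biUnion_le)
    _ = ∑ T ∈ (Finset.univ : Finset (Finset (Fin m))).filter (fun T => T.card ≤ D),
          (A T).card * 8 ^ (m - D) := Finset.sum_mul _ _ _
    _ ≤ ∑ T ∈ (Finset.univ : Finset (Finset (Fin m))).filter (fun T => T.card ≤ D),
          U.card ^ m := by
        apply Finset.sum_le_sum
        intro T hT
        have hTc := (Finset.mem_filter.1 hT).2
        refine le_trans (Nat.mul_le_mul_left _ ?_) (hA T)
        exact Nat.pow_le_pow_right (by norm_num) (by omega)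
    _ = ((Finset.univ : Finset (Finset (Fin m))).filter (fun T => T.card ≤ D)).card *
          U.card ^ m := by rw [Finset.sum_const, smul_eq_mul]
    _ ≤ 2 ^ m * U.card ^ m := by
        apply Nat.mul_le_mul_right
        refine (Finset.card_filter_le _ _).trans ?_
        rw [Finset.card_univ, Fintype.card_finset, Fintype.card_fin]

/-- the forms whose signs are not constant on `X` -/
noncomputable def Open (v : J → E → ℝ) [Fintype J] (X : Set E) : Finset J := by
  classical
  exact Finset.univ.filter fun j => ∃ x ∈ X, ∃ y ∈ X, SignType.sign (v j x) ≠ SignType.sign (v j y)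

omit [DecidableEq J] in
theorem mem_Open [Fintype J] {v : J → E → ℝ} {X : Set E} {j : J} :
    j ∈ Open v X ↔ ∃ x ∈ X, ∃ y ∈ X, SignType.sign (v j x) ≠ SignType.sign (v j y) := by
  classical
  unfold Open
  simp

omit [DecidableEq J] in
theorem Open_mono [Fintype J] {v : J → E → ℝ} {X Y : Set E} (h : Y ⊆ X) : Open v Y ⊆ Open v X := by
  intro j hj
  rw [mem_Open] at hj ⊢
  obtain ⟨x, hx, y, hy, hxy⟩ := hj
  exact ⟨x, h hx, y, h hy, hxy⟩

/-- a good sample -/
theorem good_sample [Fintype J] {v : J → E → ℝ} {o : J} {D : ℕ} (hD : Compress v o D)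
    (X : Set E) (U : Finset J) (hU : U.Nonempty) :
    ∃ S : Finset J, S.card ≤ 3 * D ∧ S ⊆ U ∧
      ∀ Y ⊆ X, Det v (insert o S) Y → (∃ y ∈ Y, 8 * (Inf v o S y U).card < U.card) →
        N v Y * 2 ^ (3 * D) ≤ N v X := by
  classical
  -- representatives of the cells
  obtain ⟨R, hRX, hR⟩ : ∃ R : Set E, R ⊆ X ∧ Set.BijOn (cell v) R (cell v '' X) :=
    Set.SurjOn.exists_bijOn_subset (Set.surjOn_image _ _)
  have hRfin : R.Finite := Set.Finite.of_finite_image (by
    rw [hR.image_eq]; exact Set.toFinite _) hR.injOn
  have hNX : N v X = hRfin.toFinset.card := by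
    unfold N
    rw [← hR.image_eq, Set.InjOn.ncard_image hR.injOn, Set.ncard_eq_toFinset_card R hRfin]
  set m := 3 * D with hm
  let Bad : (Fin m → U) → E → Prop := fun s x =>
    8 * (Inf v o (Finset.univ.image fun i => (s i : J)) x U).card < U.card
  have h1 : ∑ s : Fin m → U, (hRfin.toFinset.filter fun x => Bad s x).card * 8 ^ (m - D) ≤
      hRfin.toFinset.card * (2 ^ m * U.card ^ m) := by
    rw [← Finset.sum_mul]
    have h2 : ∑ s : Fin m → U, (hRfin.toFinset.filter fun x => Bad s x).card =
        ∑ x ∈ hRfin.toFinset, (Finset.univ.filter fun s : Fin m → U => Bad s x).card := by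
      simp only [Finset.card_filter]
      rw [Finset.sum_comm]
    rw [h2, Finset.sum_mul]
    calc _ ≤ ∑ x ∈ hRfin.toFinset, 2 ^ m * U.card ^ m := by
          apply Finset.sum_le_sum
          intro x _
          have := count_bad hD x U m (by omega)
          rwa [Nat.card_eq_fintype_card, Fintype.card_subtype] at this
      _ = _ := by rw [Finset.sum_const, smul_eq_mul]
  obtain ⟨s, hs⟩ : ∃ s : Fin m → U,
      (hRfin.toFinset.filter fun x => Bad s x).card * 8 ^ (m - D) ≤
        hRfin.toFinset.card * 2 ^ m := by
    by_contra hcon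
    push Not at hcon
    have : Nonempty U := ⟨⟨hU.choose, hU.choose_spec⟩⟩
    have h3 : ∑ s : Fin m → U, hRfin.toFinset.card * 2 ^ m <
        ∑ s : Fin m → U, (hRfin.toFinset.filter fun x => Bad s x).card * 8 ^ (m - D) :=
      Finset.sum_lt_sum_of_nonempty Finset.univ_nonempty fun s _ => hcon s
    rw [Finset.sum_const, Finset.card_univ, Fintype.card_fun, Fintype.card_fin, Fintype.card_coe,
      smul_eq_mul] at h3
    have h4 : U.card ^ m * (hRfin.toFinset.card * 2 ^ m) =
        hRfin.toFinset.card * (2 ^ m * U.card ^ m) := by ring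
    omega
  refine ⟨Finset.univ.image fun i => (s i : J), ?_, ?_, ?_⟩
  · refine Finset.card_image_le.trans ?_
    rw [Finset.card_univ, Fintype.card_fin]
  · intro j hj
    obtain ⟨i, -, rfl⟩ := Finset.mem_image.1 hj
    exact (s i).2
  · rintro Y hY hDet ⟨y0, hy0, hbad⟩
    have hsub : cell v '' Y ⊆ cell v '' ((hRfin.toFinset.filter fun x => Bad s x : Finset E) : Set E) := by
      rintro c ⟨y, hy, rfl⟩
      have hc : cell v y ∈ cell v '' X := ⟨y, hY hy, rfl⟩
      rw [← hR.image_eq] at hc
      obtain ⟨r, hr, hry⟩ := hc
      refine ⟨r, ?_, hry⟩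
      rw [Finset.coe_filter, Set.mem_ofPred_eq, Set.Finite.mem_toFinset]
      refine ⟨hr, ?_⟩
      have e1 : y ∈ Know v (insert o (Finset.univ.image fun i => (s i : J))) y0 :=
        fun p hp q hq => hDet p hp q hq y hy y0 hy0
      have e2 : r ∈ Know v (insert o (Finset.univ.image fun i => (s i : J))) y0 := by
        intro p hp q hq
        rw [← e1 p hp q hq]
        exact congrFun hry (p, q)
      show 8 * (Inf v o (Finset.univ.image fun i => (s i : J)) r U).card < U.card
      rw [Inf_congr e2]
      exact hbad
    have h5 : N v Y ≤ (hRfin.toFinset.filter fun x => Bad s x).card := by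
      unfold N
      refine (Set.ncard_le_ncard hsub (Set.toFinite _)).trans ?_
      refine (Set.ncard_image_le (Finset.finite_toSet _)).trans ?_
      rw [Set.ncard_coe_finset]
    have h6 : 8 ^ (m - D) = 2 ^ m * 2 ^ (3 * D) := by
      have : (8 : ℕ) = 2 ^ 3 := by norm_num
      rw [this, ← pow_mul, ← pow_add]
      congr 1
      omega
    rw [h6, ← mul_assoc, mul_right_comm] at hs
    have h7 : (hRfin.toFinset.filter fun x => Bad s x).card * 2 ^ (3 * D) ≤
        hRfin.toFinset.card := Nat.le_of_mul_le_mul_right hs (by positivity)
    rw [hNX]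
    exact (Nat.mul_le_mul_right _ h5).trans h7

/-- the potential of the number of open forms -/
noncomputable def rho (u : ℕ) : ℝ := if u = 0 then 0 else 1 + Real.logb (8 / 7) u

theorem rho_nonneg (u : ℕ) : 0 ≤ rho u := by
  unfold rho
  split_ifs with h
  · exact le_rfl
  · have : 0 ≤ Real.logb (8 / 7) u :=
      Real.logb_nonneg (by norm_num) (by exact_mod_cast Nat.one_le_iff_ne_zero.2 h)
    linarith

theorem rho_mono {a b : ℕ} (h : a ≤ b) : rho a ≤ rho b := by
  by_cases ha : a = 0
  · have : rho a = 0 := by unfold rho; rw [if_pos ha]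
    rw [this]
    exact rho_nonneg b
  · have hb : b ≠ 0 := by omega
    unfold rho
    rw [if_neg ha, if_neg hb]
    have : Real.logb (8 / 7) a ≤ Real.logb (8 / 7) b := by
      apply Real.logb_le_logb_of_le (by norm_num)
      · exact_mod_cast Nat.pos_of_ne_zero ha
      · exact_mod_cast h
    linarith

theorem rho_step {a b : ℕ} (hb : b ≠ 0) (h : 8 * a ≤ 7 * b) : rho a ≤ rho b - 1 := by
  have hb' : rho b = 1 + Real.logb (8 / 7) b := by unfold rho; rw [if_neg hb]
  have hbl : 0 ≤ Real.logb (8 / 7) b :=
      Real.logb_nonneg (by norm_num) (by exact_mod_cast Nat.one_le_iff_ne_zero.2 hb)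
  by_cases ha : a = 0
  · have : rho a = 0 := by unfold rho; rw [if_pos ha]
    rw [this, hb']
    linarith
  · have ha' : rho a = 1 + Real.logb (8 / 7) a := by unfold rho; rw [if_neg ha]
    have hap : (0 : ℝ) < a := by exact_mod_cast Nat.pos_of_ne_zero ha
    have h1 : Real.logb (8 / 7) ((8 / 7) * a) ≤ Real.logb (8 / 7) b := by
      apply Real.logb_le_logb_of_le (by norm_num)
      · positivity
      · have : (8 : ℝ) * a ≤ 7 * b := by exact_mod_cast h
        linarith
    rw [Real.logb_mul (by norm_num) hap.ne', Real.logb_self_eq_one (by norm_num)] at h1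
    rw [ha', hb']
    linarith

theorem Solv_main [Fintype J] {v : J → E → ℝ} {o : J} {D : ℕ} (hD : Compress v o D)
    (hD1 : 1 ≤ D) : ∀ (k : ℕ) (X : Set E), N v X + (Open v X).card ≤ k →
      X.Nonempty → Solv v (4 * Real.logb 2 (N v X) + 6 * D * rho (Open v X).card) X := by
  intro k
  induction k with
  | zero =>
    intro X hk hX
    have := N_pos (v := v) hX
    omega
  | succ k ih =>
    intro X hk hX
    have hN := N_pos (v := v) hX
    have hlog := log_nonneg (N v X)
    by_cases hU : (Open v X).Nonempty
    · have hu0 : (Open v X).card ≠ 0 := Finset.card_ne_zero.2 hU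
      obtain ⟨S, hSc, hSU, hS⟩ := good_sample hD X (Open v X) hU
      have hrho1 : 0 ≤ rho (Open v X).card - 1 := by
        have := rho_step (a := 0) hu0 (by omega)
        have h0 := rho_nonneg 0
        linarith
      have hDpos : (0 : ℝ) < D := by exact_mod_cast hD1
      have hScR : (S.card : ℝ) ≤ 3 * D := by exact_mod_cast hSc
      set K : ℝ := 2 * Real.logb 2 (N v X) + 6 * D * (rho (Open v X).card - 1) with hK
      have hK0 : 0 ≤ K := by
        rw [hK]
        have := mul_nonneg (mul_nonneg (by norm_num : (0 : ℝ) ≤ 6) hDpos.le) hrho1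
        linarith
      have hmain := sort_search (v := v) S {o} K X hK0 hX ?_ ?_
      · refine hmain.mono ?_ le_rfl
        rw [hK]
        have : 6 * (D : ℝ) * (rho (Open v X).card - 1) = 6 * D * rho (Open v X).card - 6 * D := by
          ring
        rw [this]
        linarith
      · intro p hp q hq x _ y _
        rw [Finset.mem_singleton] at hp hq
        subst hp
        subst hq
        unfold sg
        simp
      · intro Y hY hYne hDet
        have hDet' : Det v (insert o S) Y := by rwa [← Finset.insert_eq] at hDet
        have hNY := N_pos (v := v) hYne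
        have hlogY : Real.logb 2 (N v Y) ≤ Real.logb 2 (N v X) := log_mono hNY (N_mono hY)
        have hOY : (Open v Y).card ≤ (Open v X).card := Finset.card_le_card (Open_mono hY)
        by_cases hbad : ∃ y ∈ Y, 8 * (Inf v o S y (Open v X)).card < (Open v X).card
        · have h1 := hS Y hY hDet' hbad
          have h2 : N v Y < N v X := by
            have h3 : 2 ≤ 2 ^ (3 * D) := by
              calc 2 = 2 ^ 1 := by norm_num
                _ ≤ 2 ^ (3 * D) := Nat.pow_le_pow_right (by norm_num) (by omega)
            have h4 : N v Y * 2 ≤ N v X := (Nat.mul_le_mul_left _ h3).trans h1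
            omega
          have h3 : Real.logb 2 (N v Y) + 3 * D ≤ Real.logb 2 (N v X) := by
            have h4 : Real.logb 2 ((N v Y : ℝ) * 2 ^ (3 * D)) ≤ Real.logb 2 (N v X) := by
              apply Real.logb_le_logb_of_le (by norm_num)
              · positivity
              · exact_mod_cast h1
            rw [Real.logb_mul (by positivity) (by positivity), Real.logb_pow,
              Real.logb_self_eq_one (by norm_num)] at h4
            push_cast at h4
            linarith
          refine (ih Y (by omega) hYne).mono ?_ le_rfl
          have h5 : rho (Open v Y).card ≤ rho (Open v X).card := rho_mono hOY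
          have h6 : 6 * (D : ℝ) * rho (Open v Y).card ≤ 6 * D * rho (Open v X).card :=
            mul_le_mul_of_nonneg_left h5 (by positivity)
          rw [hK]
          have : 6 * (D : ℝ) * (rho (Open v X).card - 1) = 6 * D * rho (Open v X).card - 6 * D := by
            ring
          rw [this]
          linarith
        · push Not at hbad
          obtain ⟨y0, hy0⟩ := hYne
          have h1 := hbad y0 hy0
          have h2 : (Open v Y).card + (Inf v o S y0 (Open v X)).card ≤ (Open v X).card := by
            rw [← Finset.card_union_of_disjoint]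
            · exact Finset.card_le_card (Finset.union_subset (Open_mono hY) Inf_subset)
            · rw [Finset.disjoint_left]
              intro j hj hj'
              rw [mem_Open] at hj
              rw [mem_Inf] at hj'
              obtain ⟨x, hx, y, hy, hxy⟩ := hj
              apply hxy
              rw [hj'.2 x fun p hp q hq => hDet' p hp q hq x hx y0 hy0,
                hj'.2 y fun p hp q hq => hDet' p hp q hq y hy y0 hy0]
          have h3 : 8 * (Open v Y).card ≤ 7 * (Open v X).card := by omega
          have h4 : (Open v Y).card < (Open v X).card := by omega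
          have h5 : rho (Open v Y).card ≤ rho (Open v X).card - 1 := rho_step hu0 h3
          have h7 := N_mono (v := v) hY
          refine (ih Y (by omega) ⟨y0, hy0⟩).mono ?_ le_rfl
          have h6 : 6 * (D : ℝ) * rho (Open v Y).card ≤ 6 * D * (rho (Open v X).card - 1) :=
            mul_le_mul_of_nonneg_left h5 (by positivity)
          rw [hK]
          linarith
    · rw [Finset.not_nonempty_iff_eq_empty] at hU
      refine Solv.done _ _ ?_ ?_
      · have := rho_nonneg (Open v X).card
        have hDpos : (0 : ℝ) ≤ D := by positivity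
        have := mul_nonneg (mul_nonneg (by norm_num : (0 : ℝ) ≤ 6) hDpos) this
        linarith
      · intro j x hx y hy
        by_contra hne
        have : j ∈ Open v X := mem_Open.2 ⟨x, hx, y, hy, hne⟩
        rw [hU] at this
        exact absurd this (Finset.notMem_empty j)

end Pool.Agent.H81.TS
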