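import Mathlib

/-!
# Comparison trees with an information theoretic budget

`v j x` is the value of the form `j` at the input `x`. `Solv v c X`: the signs of all forms are
found by at most `c` comparisons of two forms, if the input is known to lie in `X`.
-/

set_option autoImplicit false

open Finset Set

namespace Pool.Agent.H81.TS

variable {J E : Type}

/-- the result of the comparison of the forms `p` and `q` at `x` -/
noncomputable def sg (v : J → E → ℝ) (p q : J) (x : E) : SignType := SignType.sign (v p x - v q x)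

/-- all comparisons at `x` -/
noncomputable def cell (v : J → E → ℝ) (x : E) : J × J → SignType := fun q => sg v q.1 q.2 x

/-- the number of outcomes of all comparisons on `X` -/
noncomputable def N (v : J → E → ℝ) (X : Set E) : ℕ := (cell v '' X).ncard

/-- at most `c` comparisons are enough on `X` -/
inductive Solv (v : J → E → ℝ) : ℝ → Set E → Prop
  | done (c : ℝ) (X : Set E) (hc : 0 ≤ c)
      (h : ∀ j, ∀ x ∈ X, ∀ y ∈ X, SignType.sign (v j x) = SignType.sign (v j y)) : Solv v c X
  | test (c : ℝ) (X : Set E) (p q : J) (h1 : Solv v (c - 1) (X ∩ {x | v p x < v q x}))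
      (h2 : Solv v (c - 1) (X ∩ {x | v p x = v q x}))
      (h3 : Solv v (c - 1) (X ∩ {x | v q x < v p x})) : Solv v c X

theorem Solv.mono {v : J → E → ℝ} {c : ℝ} {X : Set E} (h : Solv v c X) :
    ∀ {c' : ℝ} {X' : Set E}, c ≤ c' → X' ⊆ X → Solv v c' X' := by
  induction h with
  | done c X hc h =>
    intro c' X' hcc hX
    exact Solv.done _ _ (hc.trans hcc) fun j x hx y hy => h j x (hX hx) y (hX hy)
  | test c X p q h1 h2 h3 ih1 ih2 ih3 =>
    intro c' X' hcc hX
    exact Solv.test _ _ p q (ih1 (by linarith) (Set.inter_subset_inter_left _ hX))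
      (ih2 (by linarith) (Set.inter_subset_inter_left _ hX))
      (ih3 (by linarith) (Set.inter_subset_inter_left _ hX))

theorem Solv.empty {v : J → E → ℝ} {c : ℝ} {X : Set E} (hc : 0 ≤ c) (hX : ¬ X.Nonempty) :
    Solv v c X := by
  rw [Set.not_nonempty_iff_eq_empty] at hX
  subst hX
  exact Solv.done _ _ hc fun j x hx => absurd hx (Set.notMem_empty x)

/-- all comparisons of elements of `P` have constant results on `X` -/
def Det (v : J → E → ℝ) (P : Finset J) (X : Set E) : Prop :=
  ∀ p ∈ P, ∀ q ∈ P, ∀ x ∈ X, ∀ y ∈ X, sg v p q x = sg v p q y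

theorem Det.mono {v : J → E → ℝ} {P : Finset J} {X Y : Set E} (h : Det v P X) (hY : Y ⊆ X) :
    Det v P Y := fun p hp q hq x hx y hy => h p hp q hq x (hY hx) y (hY hy)

section count

variable [Fintype J] {v : J → E → ℝ}

theorem N_mono {X Y : Set E} (h : X ⊆ Y) : N v X ≤ N v Y :=
  Set.ncard_le_ncard (Set.image_mono h) (Set.toFinite _)

theorem N_pos {X : Set E} (h : X.Nonempty) : 0 < N v X := by
  unfold N
  rw [Set.ncard_pos (Set.toFinite _)]
  exact h.image _

omit [Fintype J] in
theorem sg_neg_iff {p q : J} {x : E} : sg v p q x = -1 ↔ v p x < v q x := by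
  unfold sg
  rw [sign_eq_neg_one_iff, sub_neg]

omit [Fintype J] in
theorem sg_zero_iff {p q : J} {x : E} : sg v p q x = 0 ↔ v p x = v q x := by
  unfold sg
  rw [sign_eq_zero_iff, sub_eq_zero]

omit [Fintype J] in
theorem sg_pos_iff {p q : J} {x : E} : sg v p q x = 1 ↔ v q x < v p x := by
  unfold sg
  rw [sign_eq_one_iff, sub_pos]

theorem N_split (X : Set E) (p q : J) :
    N v (X ∩ {x | v q x < v p x}) + N v (X ∩ {x | v p x < v q x}) ≤ N v X := by
  unfold N
  rw [← Set.ncard_union_eq _ (Set.toFinite _) (Set.toFinite _)]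
  · apply Set.ncard_le_ncard _ (Set.toFinite _)
    rintro c (⟨x, hx, rfl⟩ | ⟨x, hx, rfl⟩) <;> exact ⟨x, hx.1, rfl⟩
  · rw [Set.disjoint_left]
    rintro c ⟨x, hx, rfl⟩ ⟨y, hy, hxy⟩
    have h1 : sg v p q x = 1 := sg_pos_iff.2 hx.2
    have h2 : sg v p q y = -1 := sg_neg_iff.2 hy.2
    have h3 := congrFun hxy (p, q)
    simp only [cell] at h3
    rw [h1, h2] at h3
    exact absurd h3 (by decide)

theorem log_half {a b : ℕ} (ha : 0 < a) (h : 2 * a ≤ b) :
    Real.logb 2 (a : ℝ) ≤ Real.logb 2 (b : ℝ) - 1 := by
  have h1 : Real.logb 2 (2 * (a : ℝ)) ≤ Real.logb 2 (b : ℝ) := by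
    apply Real.logb_le_logb_of_le (by norm_num)
    · positivity
    · exact_mod_cast h
  rw [Real.logb_mul (by norm_num) (by positivity), Real.logb_self_eq_one (by norm_num)] at h1
  linarith

theorem log_mono {a b : ℕ} (ha : 0 < a) (h : a ≤ b) :
    Real.logb 2 (a : ℝ) ≤ Real.logb 2 (b : ℝ) := by
  apply Real.logb_le_logb_of_le (by norm_num)
  · positivity
  · exact_mod_cast h

theorem log_nonneg (a : ℕ) : 0 ≤ Real.logb 2 (a : ℝ) := by
  rcases Nat.eq_zero_or_pos a with rfl | h
  · simp
  · apply Real.logb_nonneg (by norm_num)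
    exact_mod_cast h

/-- insertion of the form `q` into the sorted set of forms `P` -/
theorem insert_search [DecidableEq J] (P : Finset J) (q : J) (K : ℝ) (hK : 0 ≤ K) :
    ∀ (m : ℕ) (X : Set E), N v X ≤ m → X.Nonempty → Det v P X →
      (∀ Y ⊆ X, Y.Nonempty → Det v (insert q P) Y → Solv v (K + 2 * Real.logb 2 (N v Y)) Y) →
      Solv v (K + 2 * Real.logb 2 (N v X) + 2) X := by
  classical
  intro m
  induction m with
  | zero =>
    intro X hN hX
    exact absurd (N_pos (v := v) hX) (by omega)
  | succ m ih =>
    intro X hN hX hP hfin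
    have hXp := N_pos (v := v) hX
    have hlogX := log_nonneg (N v X)
    -- final sets
    have fin : ∀ Y ⊆ X, Det v (insert q P) Y → Solv v (K + 2 * Real.logb 2 (N v X)) Y := by
      intro Y hY hD
      by_cases hne : Y.Nonempty
      · refine (hfin Y hY hne hD).mono ?_ le_rfl
        have := log_mono (N_pos (v := v) hne) (N_mono (v := v) hY)
        linarith
      · exact Solv.empty (by linarith) hne
    -- small sets
    have small : ∀ Y ⊆ X, 2 * N v Y ≤ N v X → Solv v (K + 2 * Real.logb 2 (N v X)) Y := by
      intro Y hY hD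
      by_cases hne : Y.Nonempty
      · have hYp := N_pos (v := v) hne
        refine (ih Y (by omega) hne (hP.mono hY) fun Z hZ => hfin Z (hZ.trans hY)).mono ?_ le_rfl
        have := log_half hYp hD
        linarith
      · exact Solv.empty (by linarith) hne
    set M := P.filter fun p => ∃ x ∈ X, ∃ y ∈ X, sg v q p x ≠ sg v q p y with hM
    have hdet : ∀ p ∈ P, p ∉ M → ∀ x ∈ X, ∀ y ∈ X, sg v q p x = sg v q p y := by
      intro p hp hpM x hx y hy
      by_contra h
      exact hpM (Finset.mem_filter.2 ⟨hp, x, hx, y, hy, h⟩)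
    -- how to see that the position is determined
    have key : ∀ Y ⊆ X, (∀ p ∈ M, ∀ x ∈ Y, ∀ y ∈ Y, sg v q p x = sg v q p y) →
        Det v (insert q P) Y := by
      intro Y hY h
      have h' : ∀ p ∈ P, ∀ x ∈ Y, ∀ y ∈ Y, sg v q p x = sg v q p y := by
        intro p hp x hx y hy
        by_cases hpM : p ∈ M
        · exact h p hpM x hx y hy
        · exact hdet p hp hpM x (hY hx) y (hY hy)
      have hsymm : ∀ (a b : J) (x y : E), sg v a b x = sg v a b y → sg v b a x = sg v b a y := by
        intro a b x y hab
        unfold sg at hab ⊢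
        have e1 : v b x - v a x = -(v a x - v b x) := by ring
        have e2 : v b y - v a y = -(v a y - v b y) := by ring
        rw [e1, e2, Left.sign_neg, Left.sign_neg, hab]
      intro a ha b hb x hx y hy
      rcases Finset.mem_insert.1 ha with ha' | ha'
      · rcases Finset.mem_insert.1 hb with hb' | hb'
        · subst ha'
          subst hb'
          unfold sg
          simp
        · subst ha'
          exact h' b hb' x hx y hy
      · rcases Finset.mem_insert.1 hb with hb' | hb'
        · subst hb'
          exact hsymm _ _ _ _ (h' a ha' x hx y hy)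
        · exact hP a ha' b hb' x (hY hx) y (hY hy)
    obtain ⟨x0, hx0⟩ := hX
    -- the order of `P`
    have hord : ∀ a ∈ P, ∀ b ∈ P, v a x0 ≤ v b x0 → ∀ x ∈ X, v a x ≤ v b x := by
      intro a ha b hb hab x hx
      by_contra hlt
      rw [not_le] at hlt
      have h1 : sg v a b x = 1 := sg_pos_iff.2 hlt
      rw [hP a ha b hb x hx x0 hx0] at h1
      exact absurd (sg_pos_iff.1 h1) (not_lt.2 hab)
    have hMP : M ⊆ P := Finset.filter_subset _ _
    set Mm := M.filter fun p => 2 * N v (X ∩ {x | v q x < v p x}) ≤ N v X with hMm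
    set Mp := M.filter fun p => ¬ 2 * N v (X ∩ {x | v q x < v p x}) ≤ N v X with hMp
    -- an equality determines everything
    have eqcase : ∀ p ∈ P, ∀ Y ⊆ X ∩ {x | v q x = v p x}, Det v (insert q P) Y := by
      intro p hp Y hY
      refine key Y (fun x hx => (hY hx).1) ?_
      intro a ha x hx y hy
      have e1 : v q x = v p x := (hY hx).2
      have e2 : v q y = v p y := (hY hy).2
      have := hP p hp a (hMP ha) x (hY hx).1 y (hY hy).1
      unfold sg at this ⊢
      rw [e1, e2, this]
    -- the second test
    have stepB : ∀ X1 ⊆ X, (∀ p ∈ Mm, ∀ x ∈ X1, v p x < v q x) →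
        Solv v (K + 2 * Real.logb 2 (N v X) + 1) X1 := by
      intro X1 hX1 hlow
      by_cases hne : Mp.Nonempty
      · obtain ⟨p, hp, hmin⟩ := Finset.exists_min_image Mp (fun p => v p x0) hne
        have hpP : p ∈ P := hMP (Finset.mem_filter.1 hp).1
        refine Solv.test _ _ q p ?_ ?_ ?_
        · rw [add_sub_cancel_right]
          refine fin _ (fun x hx => hX1 hx.1) (key _ (fun x hx => hX1 hx.1) ?_)
          intro a ha x hx y hy
          by_cases haM : a ∈ Mm
          · rw [sg_pos_iff.2 (hlow a haM x hx.1), sg_pos_iff.2 (hlow a haM y hy.1)]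
          · have haP : a ∈ Mp := by
              rw [hMp, Finset.mem_filter]
              refine ⟨ha, fun h => haM ?_⟩
              rw [hMm, Finset.mem_filter]
              exact ⟨ha, h⟩
            have hle : ∀ z ∈ X1 ∩ {x | v q x < v p x}, v q z < v a z := fun z hz =>
              lt_of_lt_of_le hz.2 (hord p hpP a (hMP ha) (hmin a haP) z (hX1 hz.1))
            rw [sg_neg_iff.2 (hle x hx), sg_neg_iff.2 (hle y hy)]
        · rw [add_sub_cancel_right]
          exact fin _ (fun x hx => hX1 hx.1)
            (eqcase p hpP _ fun x hx => ⟨hX1 hx.1, hx.2⟩)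
        · rw [add_sub_cancel_right]
          refine small _ (fun x hx => hX1 hx.1) ?_
          have h1 := (Finset.mem_filter.1 hp).2
          rw [not_le] at h1
          have h2 := N_split (v := v) X p q
          have h3 : N v (X1 ∩ {x | v p x < v q x}) ≤ N v (X ∩ {x | v p x < v q x}) :=
            N_mono (Set.inter_subset_inter_left _ hX1)
          omega
      · refine (fin X1 hX1 (key X1 hX1 ?_)).mono (by linarith) le_rfl
        intro a ha x hx y hy
        have haM : a ∈ Mm := by
          by_contra haM
          apply hne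
          refine ⟨a, ?_⟩
          rw [hMp, Finset.mem_filter]
          refine ⟨ha, fun h => haM ?_⟩
          rw [hMm, Finset.mem_filter]
          exact ⟨ha, h⟩
        rw [sg_pos_iff.2 (hlow a haM x hx), sg_pos_iff.2 (hlow a haM y hy)]
    by_cases hne : Mm.Nonempty
    · obtain ⟨p, hp, hmax⟩ := Finset.exists_max_image Mm (fun p => v p x0) hne
      have hpP : p ∈ P := hMP (Finset.mem_filter.1 hp).1
      refine Solv.test _ _ q p ?_ ?_ ?_
      · refine (small _ Set.inter_subset_left (Finset.mem_filter.1 hp).2).mono (by linarith) le_rfl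
      · refine (fin _ Set.inter_subset_left (eqcase p hpP _ le_rfl)).mono (by linarith) le_rfl
      · refine (stepB (X ∩ {x | v p x < v q x}) Set.inter_subset_left ?_).mono (by linarith) le_rfl
        intro a ha x hx
        exact lt_of_le_of_lt (hord a (hMP (Finset.mem_filter.1 ha).1) p hpP (hmax a ha) x hx.1) hx.2
    · refine (stepB X le_rfl ?_).mono (by linarith) le_rfl
      intro a ha
      exact absurd ⟨a, ha⟩ hne

/-- sorting a set of forms -/
theorem sort_search [DecidableEq J] (S : Finset J) :
    ∀ (P : Finset J) (K : ℝ) (X : Set E), 0 ≤ K → X.Nonempty → Det v P X →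
      (∀ Y ⊆ X, Y.Nonempty → Det v (P ∪ S) Y → Solv v (K + 2 * Real.logb 2 (N v Y)) Y) →
      Solv v (K + 2 * Real.logb 2 (N v X) + 2 * S.card) X := by
  induction S using Finset.induction_on with
  | empty =>
    intro P K X hK hX hP hfin
    have := hfin X le_rfl hX (by simpa using hP)
    simpa using this
  | insert q S hq ih =>
    intro P K X hK hX hP hfin
    have hc : ((insert q S).card : ℝ) = S.card + 1 := by
      rw [Finset.card_insert_of_notMem hq]
      push_cast
      ring
    rw [hc]
    have := insert_search P q (K + 2 * S.card) (by positivity) (N v X) X le_rfl hX hP ?_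
    · refine this.mono ?_ le_rfl
      linarith
    · intro Y hY hYne hD
      have h1 := ih (insert q P) K Y hK hYne hD ?_
      · refine h1.mono ?_ le_rfl
        linarith
      · intro Z hZ hZne hDZ
        apply hfin Z (hZ.trans hY) hZne
        rwa [Finset.union_insert, ← Finset.insert_union]

end count

end Pool.Agent.H81.TS
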