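import Pool.Agent.H81.TS.Cert

/-!
# 3SUM: the upper and the lower bound
-/

set_option autoImplicit false

open Finset Set

namespace Pool.Agent.H81.TS

theorem value_sum {n : ℕ} (i j k : Fin n) (x : Fin n → ℝ) :
    value (Pi.single i 1 + Pi.single j 1 - Pi.single k 1) x = x i + x j - x k := by
  unfold value
  simp only [Pi.sub_apply, Pi.add_apply]
  push_cast
  simp only [sub_mul, add_mul, Finset.sum_sub_distrib, Finset.sum_add_distrib, Pi.single_apply]
  simp

theorem hasSum3_iff {n : ℕ} (x : Fin n → ℝ) :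
    HasSum3 x ↔ ∃ h ∈ sumForms n, SignType.sign (value h x) = 0 := by
  constructor
  · rintro ⟨i, j, k, h1, h2, h3, h⟩
    refine ⟨_, Finset.mem_image_of_mem _ (Finset.mem_filter.2 ⟨Finset.mem_univ (i, j, k),
      h1, h2, h3⟩), ?_⟩
    rw [sign_eq_zero_iff, value_sum]
    linarith
  · rintro ⟨h, hh, h0⟩
    obtain ⟨⟨i, j, k⟩, hq, rfl⟩ := Finset.mem_image.1 hh
    obtain ⟨-, h1, h2, h3⟩ := Finset.mem_filter.1 hq
    rw [sign_eq_zero_iff, value_sum] at h0
    exact ⟨i, j, k, h1, h2, h3, by linarith⟩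

theorem sumForms_norm {n : ℕ} : ∀ h ∈ sumForms n, ∑ j, (h j).natAbs ≤ 3 := by
  intro h hh
  obtain ⟨⟨i, j, k⟩, -, rfl⟩ := Finset.mem_image.1 hh
  have hs : ∀ i : Fin n, ∑ l, ((Pi.single i 1 : Fin n → ℤ) l).natAbs = 1 := by
    intro i
    rw [Finset.sum_eq_single i]
    · simp
    · intro l _ hl
      rw [Pi.single_eq_of_ne hl]
      rfl
    · intro h
      exact absurd (Finset.mem_univ i) h
  calc _ ≤ ∑ l, (((Pi.single i 1 : Fin n → ℤ) l).natAbs + ((Pi.single j 1 : Fin n → ℤ) l).natAbs +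
        ((Pi.single k 1 : Fin n → ℤ) l).natAbs) := by
        apply Finset.sum_le_sum
        intro l _
        simp only [Pi.sub_apply, Pi.add_apply]
        omega
    _ = 3 := by
        rw [Finset.sum_add_distrib, Finset.sum_add_distrib, hs, hs, hs]

theorem sumForms_card {n : ℕ} (hn : 2 ≤ n) : (sumForms n).card + 1 ≤ n ^ 3 := by
  have h1 : (sumForms n).card ≤ ((Finset.univ : Finset (Fin n × Fin n × Fin n)).filter fun q =>
    q.1 ≠ q.2.1 ∧ q.1 ≠ q.2.2 ∧ q.2.1 ≠ q.2.2).card := Finset.card_image_le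
  have h2 : ((Finset.univ : Finset (Fin n × Fin n × Fin n)).filter fun q =>
    q.1 ≠ q.2.1 ∧ q.1 ≠ q.2.2 ∧ q.2.1 ≠ q.2.2).card <
      (Finset.univ : Finset (Fin n × Fin n × Fin n)).card := by
    apply Finset.card_lt_card
    rw [Finset.filter_ssubset]
    refine ⟨(⟨0, by omega⟩, ⟨0, by omega⟩, ⟨0, by omega⟩), Finset.mem_univ _, ?_⟩
    rintro ⟨h, -⟩
    exact h rfl
  rw [Finset.card_univ, Fintype.card_prod, Fintype.card_prod, Fintype.card_fin] at h2
  have h3 : n ^ 3 = n * (n * n) := by ring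
  omega

/-- 3SUM with `O (n log n)` tests -/
theorem upper {n : ℕ} (hn : 2 ≤ n) : ∃ t : Tree n Bool,
    (∀ c ∈ t.tests, ∃ h ∈ insert 0 (sumForms n), ∃ h' ∈ insert 0 (sumForms n), c = h - h') ∧
    (t.depth : ℝ) ≤ 6000 * n * Real.logb 2 n ∧ ∀ x, t.run x = true ↔ HasSum3 x := by
  classical
  obtain ⟨t, h1, h2, h3⟩ := tree_exists (sumForms n) 3 6 (by norm_num) (by norm_num) sumForms_norm
  refine ⟨t.map fun r => decide (∃ h ∈ sumForms n, r h = 0), ?_, ?_, ?_⟩
  · rw [Tree.map_tests]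
    exact h1
  · rw [Tree.map_depth]
    refine h2.trans ?_
    have hnR : (2 : ℝ) ≤ n := by exact_mod_cast hn
    have hL : 0 ≤ Real.logb 2 n := log_nonneg n
    have h4 : Real.logb 2 ((sumForms n).card + 1) ≤ 3 * Real.logb 2 n := by
      have h5 : (((sumForms n).card : ℝ) + 1) ≤ (n : ℝ) ^ 3 := by
        exact_mod_cast sumForms_card hn
      calc _ ≤ Real.logb 2 ((n : ℝ) ^ 3) := by
            apply Real.logb_le_logb_of_le (by norm_num) (by positivity) h5
        _ = 3 * Real.logb 2 n := by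
            rw [Real.logb_pow]
            norm_num
    have h6 : 268 * (((6 : ℕ) : ℝ) * n + 1) ≤ 2000 * n := by
      push_cast
      linarith
    calc 268 * (((6 : ℕ) : ℝ) * n + 1) * Real.logb 2 ((sumForms n).card + 1)
        ≤ 268 * (((6 : ℕ) : ℝ) * n + 1) * (3 * Real.logb 2 n) :=
          mul_le_mul_of_nonneg_left h4 (by positivity)
      _ ≤ 2000 * n * (3 * Real.logb 2 n) :=
          mul_le_mul_of_nonneg_right h6 (by positivity)
      _ = 6000 * n * Real.logb 2 n := by ring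
  · intro x
    rw [Tree.map_run, decide_eq_true_iff, hasSum3_iff]
    constructor
    · rintro ⟨h, hh, h0⟩
      exact ⟨h, hh, by rw [← h3 x h hh, h0]⟩
    · rintro ⟨h, hh, h0⟩
      exact ⟨h, hh, by rw [h3 x h hh, h0]⟩

/-- the inputs `x` and `y` lead to the same leaf -/
def Same {n : ℕ} {α : Type} : Tree n α → (Fin n → ℝ) → (Fin n → ℝ) → Prop
  | .leaf _, _, _ => True
  | .node a neg zer pos, x, y => SignType.sign (value a x) = SignType.sign (value a y) ∧
      (value a x < 0 → Same neg x y) ∧ (value a x = 0 → Same zer x y) ∧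
      (0 < value a x → Same pos x y)

theorem Same.symm {n : ℕ} {α : Type} {t : Tree n α} {x y : Fin n → ℝ} (h : Same t x y) :
    Same t y x := by
  induction t with
  | leaf c => trivial
  | node a neg zer pos h1 h2 h3 =>
    obtain ⟨e, g1, g2, g3⟩ := h
    refine ⟨e.symm, ?_, ?_, ?_⟩
    · intro hy
      rw [sign_neg hy, sign_eq_neg_one_iff] at e
      exact h1 (g1 e)
    · intro hy
      rw [hy, sign_zero, sign_eq_zero_iff] at e
      exact h2 (g2 e)
    · intro hy
      rw [sign_pos hy, sign_eq_one_iff] at e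
      exact h3 (g3 e)

theorem value_combine {n : ℕ} (a : Fin n → ℤ) (x y : Fin n → ℝ) (r s : ℝ) :
    value a (fun i => r * x i + s * y i) = r * value a x + s * value a y := by
  unfold value
  rw [Finset.mul_sum, Finset.mul_sum, ← Finset.sum_add_distrib]
  apply Finset.sum_congr rfl
  intro i _
  ring

theorem Same.run {n : ℕ} {α : Type} (t : Tree n α) (x y : Fin n → ℝ) (h : Same t x y) {r s : ℝ}
    (hr : 0 < r) (hs : 0 < s) : t.run (fun i => r * x i + s * y i) = t.run x := by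
  induction t with
  | leaf c => rfl
  | node a neg zer pos h1 h2 h3 =>
    obtain ⟨e, g1, g2, g3⟩ := h
    have hc := sign_combine (s := SignType.sign (value a x)) hr hs rfl e.symm
    rw [← value_combine] at hc
    simp only [Tree.run]
    rcases lt_trichotomy (value a x) 0 with hlt | heq | hgt
    · rw [sign_neg hlt] at hc
      rw [if_pos hlt, if_pos (sign_eq_neg_one_iff.1 hc)]
      exact h1 (g1 hlt)
    · rw [heq, sign_zero] at hc
      rw [sign_eq_zero_iff] at hc
      rw [hc, heq]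
      simp only [lt_irrefl, if_false, if_true]
      exact h2 (g2 heq)
    · rw [sign_pos hgt] at hc
      have hc' := sign_eq_one_iff.1 hc
      rw [if_neg (not_lt.2 hgt.le), if_neg hgt.ne', if_neg (not_lt.2 hc'.le), if_neg hc'.ne']
      exact h3 (g3 hgt)

theorem leaves_bound {n : ℕ} {α ι : Type} [DecidableEq ι] (t : Tree n α) (x : ι → Fin n → ℝ) :
    ∀ S : Finset ι, (∀ a ∈ S, ∀ b ∈ S, a ≠ b → ¬ Same t (x a) (x b)) →
      S.card ≤ 3 ^ t.depth := by
  classical
  induction t with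
  | leaf c =>
    intro S hS
    simp only [Tree.depth, pow_zero]
    rw [Finset.card_le_one]
    intro a ha b hb
    by_contra hab
    exact hS a ha b hb hab trivial
  | node a neg zer pos h1 h2 h3 =>
    intro S hS
    set d := max neg.depth (max zer.depth pos.depth) with hd
    have e1 := h1 (S.filter fun p => value a (x p) < 0) (by
      intro p hp q hq hpq hsame
      rw [Finset.mem_filter] at hp hq
      refine hS p hp.1 q hq.1 hpq ⟨?_, fun _ => hsame, ?_, ?_⟩
      · rw [sign_neg hp.2, sign_neg hq.2]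
      · intro h
        rw [h] at hp
        exact absurd hp.2 (lt_irrefl _)
      · intro h
        exact absurd (h.trans hp.2) (lt_irrefl _))
    have e2 := h2 (S.filter fun p => value a (x p) = 0) (by
      intro p hp q hq hpq hsame
      rw [Finset.mem_filter] at hp hq
      refine hS p hp.1 q hq.1 hpq ⟨?_, ?_, fun _ => hsame, ?_⟩
      · rw [hp.2, hq.2]
      · intro h
        exact absurd hp.2 h.ne
      · intro h
        exact absurd hp.2 h.ne')
    have e3 := h3 (S.filter fun p => 0 < value a (x p)) (by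
      intro p hp q hq hpq hsame
      rw [Finset.mem_filter] at hp hq
      refine hS p hp.1 q hq.1 hpq ⟨?_, ?_, ?_, fun _ => hsame⟩
      · rw [sign_pos hp.2, sign_pos hq.2]
      · intro h
        exact absurd (h.trans hp.2) (lt_irrefl _)
      · intro h
        exact absurd h hp.2.ne')
    have hsub : S ⊆ (S.filter fun p => value a (x p) < 0) ∪ (S.filter fun p => value a (x p) = 0) ∪
        (S.filter fun p => 0 < value a (x p)) := by
      intro p hp
      simp only [Finset.mem_union, Finset.mem_filter, hp, true_and]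
      rcases lt_trichotomy (value a (x p)) 0 with h | h | h
      · exact Or.inl (Or.inl h)
      · exact Or.inl (Or.inr h)
      · exact Or.inr h
    have hc := (Finset.card_le_card hsub).trans ((Finset.card_union_le _ _).trans
      (add_le_add_left (Finset.card_union_le _ _) _))
    have p1 : 3 ^ neg.depth ≤ 3 ^ d := Nat.pow_le_pow_right (by norm_num) (le_max_left _ _)
    have p2 : 3 ^ zer.depth ≤ 3 ^ d :=
      Nat.pow_le_pow_right (by norm_num) ((le_max_left _ _).trans (le_max_right _ _))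
    have p3 : 3 ^ pos.depth ≤ 3 ^ d :=
      Nat.pow_le_pow_right (by norm_num) ((le_max_right _ _).trans (le_max_right _ _))
    simp only [Tree.depth]
    rw [← hd, pow_add, pow_one]
    omega

/-- the hard inputs -/
def W (m : ℕ) (D : ℤ) (v : ℕ → ℤ) (i : Fin (3 * m)) : ℤ :=
  if i.1 < m then 2 * D * ((m * (m + 1) : ℤ) + i.1 * (m + 1)) + v i.1
  else if i.1 < 2 * m then 2 * D * (6 * (m * (m + 1) : ℤ) - (i.1 - m) * (m + 1))
  else D * (14 * (m * (m + 1) : ℤ) + 2 * (i.1 - 2 * m) + 1)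

theorem W_abs {m : ℕ} (hm : 2 ≤ m) {D : ℤ} (hD1 : 1 ≤ D) (hDm : D ≤ m - 1) {v : ℕ → ℤ}
    (hv0 : ∀ l, 0 ≤ v l) (hv1 : ∀ l, v l ≤ 2 * D * (m - 1)) (i : Fin (3 * m)) :
    |W m D v i| ≤ ((3 * m : ℕ) : ℤ) ^ 3 := by
  have hmZ : (2 : ℤ) ≤ m := by exact_mod_cast hm
  have hi := i.2
  have e0 : (((3 * m : ℕ) : ℤ)) ^ 3 = 27 * (m : ℤ) ^ 3 := by push_cast; ring
  rw [e0]
  have hDM : D * (16 * (m : ℤ) ^ 2 + 16 * m) ≤ (m - 1) * (16 * (m : ℤ) ^ 2 + 16 * m) :=
    mul_le_mul_of_nonneg_right hDm (by positivity)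
  have hbig : ((m : ℤ) - 1) * (16 * (m : ℤ) ^ 2 + 16 * m) ≤ 27 * (m : ℤ) ^ 3 := by
    nlinarith [pow_nonneg (by linarith : (0 : ℤ) ≤ m) 3]
  have hDpos : (0 : ℤ) < D := by linarith
  unfold W
  split_ifs with h1 h2
  · have hi0 : (0 : ℤ) ≤ i.1 := by positivity
    have hi1 : (i.1 : ℤ) ≤ m - 1 := by omega
    have hv0' := hv0 i.1
    have hv1' := hv1 i.1
    have h3 : (i.1 : ℤ) * (m + 1) ≤ (m - 1) * (m + 1) :=
      mul_le_mul_of_nonneg_right hi1 (by linarith)
    have h4 : (0 : ℤ) ≤ (i.1 : ℤ) * (m + 1) := by positivity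
    have h5 : 0 ≤ 2 * D * ((m * (m + 1) : ℤ) + i.1 * (m + 1)) := by positivity
    rw [abs_of_nonneg (by linarith)]
    have h6 : 2 * D * ((m * (m + 1) : ℤ) + i.1 * (m + 1)) ≤
        2 * D * ((m * (m + 1) : ℤ) + (m - 1) * (m + 1)) :=
      mul_le_mul_of_nonneg_left (by linarith) (by linarith)
    have h7 : 2 * D * ((m * (m + 1) : ℤ) + (m - 1) * (m + 1)) + 2 * D * (m - 1) ≤
        D * (16 * (m : ℤ) ^ 2 + 16 * m) := by
      have : 0 ≤ D * (12 * (m : ℤ) ^ 2 + 12 * m + 4) := by positivity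
      nlinarith
    linarith
  · have hi0 : (0 : ℤ) ≤ (i.1 : ℤ) - m := by omega
    have hi1 : (i.1 : ℤ) - m ≤ m - 1 := by omega
    have h3 : ((i.1 : ℤ) - m) * (m + 1) ≤ (m - 1) * (m + 1) :=
      mul_le_mul_of_nonneg_right hi1 (by linarith)
    have h4 : (0 : ℤ) ≤ ((i.1 : ℤ) - m) * (m + 1) := mul_nonneg hi0 (by linarith)
    have h5 : (0 : ℤ) ≤ 6 * (m * (m + 1) : ℤ) - (i.1 - m) * (m + 1) := by nlinarith
    rw [abs_of_nonneg (by positivity)]
    have h6 : 2 * D * (6 * (m * (m + 1) : ℤ) - (i.1 - m) * (m + 1)) ≤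
        2 * D * (6 * (m * (m + 1) : ℤ)) :=
      mul_le_mul_of_nonneg_left (by linarith) (by linarith)
    have h7 : 2 * D * (6 * (m * (m + 1) : ℤ)) ≤ D * (16 * (m : ℤ) ^ 2 + 16 * m) := by
      have : 0 ≤ D * (4 * (m : ℤ) ^ 2 + 4 * m) := by positivity
      nlinarith
    linarith
  · have hi0 : (0 : ℤ) ≤ (i.1 : ℤ) - 2 * m := by omega
    have hi1 : (i.1 : ℤ) - 2 * m ≤ m - 1 := by omega
    rw [abs_of_nonneg (by positivity)]
    have h6 : D * (14 * (m * (m + 1) : ℤ) + 2 * (i.1 - 2 * m) + 1) ≤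
        D * (14 * (m * (m + 1) : ℤ) + 2 * (m - 1) + 1) :=
      mul_le_mul_of_nonneg_left (by linarith) (by linarith)
    have h7 : D * (14 * (m * (m + 1) : ℤ) + 2 * (m - 1) + 1) ≤
        D * (16 * (m : ℤ) ^ 2 + 16 * m) := by
      apply mul_le_mul_of_nonneg_left _ hDpos.le
      nlinarith
    linarith

theorem W_inj {m : ℕ} (hm : 2 ≤ m) {D : ℤ} (hD1 : 1 ≤ D) {v : ℕ → ℤ}
    (hv0 : ∀ l, 0 ≤ v l) (hv1 : ∀ l, v l ≤ 2 * D * (m - 1)) : Function.Injective (W m D v) := by
  have hmZ : (2 : ℤ) ≤ m := by exact_mod_cast hm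
  have hDpos : (0 : ℤ) < D := by linarith
  -- the numbers divided by `2 D` up to the error `m - 1`
  have key : ∀ i j : Fin (3 * m), i.1 < j.1 → W m D v i ≠ W m D v j := by
    intro i j hij
    have hi := i.2
    have hj := j.2
    have hv0i := hv0 i.1
    have hv1i := hv1 i.1
    have hv0j := hv0 j.1
    have hv1j := hv1 j.1
    have hprod : ∀ a b : ℤ, 0 < a → 0 < b → 0 < a * b := fun a b ha hb => mul_pos ha hb
    have hpM : (0 : ℤ) < m * (m + 1) := by positivity
    unfold W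
    split_ifs with h1 h2 h3 h4 h5
    · -- both in the first block
      intro h
      have h6 : (i.1 : ℤ) + 1 ≤ j.1 := by omega
      have h7 : 2 * D * (((i.1 : ℤ) + 1) * (m + 1)) ≤ 2 * D * ((j.1 : ℤ) * (m + 1)) :=
        mul_le_mul_of_nonneg_left (mul_le_mul_of_nonneg_right h6 (by linarith)) (by linarith)
      nlinarith
    · intro h
      have h7 : 2 * D * ((i.1 : ℤ) * (m + 1)) ≤ 2 * D * (((m : ℤ) - 1) * (m + 1)) :=
        mul_le_mul_of_nonneg_left (mul_le_mul_of_nonneg_right (by omega) (by linarith))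
          (by linarith)
      have h8 : 2 * D * (((j.1 : ℤ) - m) * (m + 1)) ≤ 2 * D * (((m : ℤ) - 1) * (m + 1)) :=
        mul_le_mul_of_nonneg_left (mul_le_mul_of_nonneg_right (by omega) (by linarith))
          (by linarith)
      have h9 := hprod D (m * (m + 1)) hDpos hpM
      nlinarith
    · intro h
      have h7 : 2 * D * ((i.1 : ℤ) * (m + 1)) ≤ 2 * D * (((m : ℤ) - 1) * (m + 1)) :=
        mul_le_mul_of_nonneg_left (mul_le_mul_of_nonneg_right (by omega) (by linarith))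
          (by linarith)
      have h8 : (0 : ℤ) ≤ D * (j.1 - 2 * m) := mul_nonneg hDpos.le (by omega)
      have h9 := hprod D (m * (m + 1)) hDpos hpM
      nlinarith
    · omega
    · intro h
      have h6 : (i.1 : ℤ) + 1 ≤ j.1 := by omega
      have h7 : 2 * D * (((i.1 : ℤ) - m + 1) * (m + 1)) ≤ 2 * D * (((j.1 : ℤ) - m) * (m + 1)) :=
        mul_le_mul_of_nonneg_left (mul_le_mul_of_nonneg_right (by linarith) (by linarith))
          (by linarith)
      nlinarith
    · intro h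
      have h7 : (0 : ℤ) ≤ 2 * D * (((i.1 : ℤ) - m) * (m + 1)) := by
        have : (0 : ℤ) ≤ (i.1 : ℤ) - m := by omega
        positivity
      have h8 : (0 : ℤ) ≤ D * (j.1 - 2 * m) := mul_nonneg hDpos.le (by omega)
      have h9 := hprod D (m * (m + 1)) hDpos hpM
      nlinarith
    · omega
    · omega
    · intro h
      have h6 : (14 * (m * (m + 1) : ℤ) + 2 * (i.1 - 2 * m) + 1) =
          (14 * (m * (m + 1) : ℤ) + 2 * (j.1 - 2 * m) + 1) := mul_left_cancel₀ hDpos.ne' h
      omega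
  intro i j hij
  by_contra hne
  have hne' : i.1 ≠ j.1 := fun h => hne (Fin.ext h)
  rcases lt_or_gt_of_ne hne' with h | h
  · exact key i j h hij
  · exact key j i h hij.symm

/-- no solution for even `v` and `D = 1` -/
theorem W_no {m : ℕ} (hm : 2 ≤ m) {u : ℕ → ℤ} (hu0 : ∀ l, 0 ≤ u l) (hu1 : ∀ l, u l ≤ m - 1)
    (i j k : Fin (3 * m)) :
    W m 1 (fun l => 2 * u l) i + W m 1 (fun l => 2 * u l) j ≠ W m 1 (fun l => 2 * u l) k := by
  have hmZ : (2 : ℤ) ≤ m := by exact_mod_cast hm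
  obtain ⟨P, hP⟩ : ∃ P : ℤ, P = m * (m + 1) := ⟨_, rfl⟩
  have hPm : (m : ℤ) + m + m ≤ P := by rw [hP]; nlinarith
  -- the shape of the values
  have shape : ∀ i : Fin (3 * m), ∃ e : ℤ,
      ((0 ≤ e ∧ e + m + 1 ≤ P ∧ W m 1 (fun l => 2 * u l) i = 2 * P + 2 * e + 2 * u i.1) ∨
        (0 ≤ e ∧ e + m + 1 ≤ P ∧ W m 1 (fun l => 2 * u l) i = 12 * P - 2 * e)) ∨
        (0 ≤ e ∧ e ≤ m - 1 ∧ W m 1 (fun l => 2 * u l) i = 14 * P + 2 * e + 1) := by
    intro i
    have hi := i.2
    unfold W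
    split_ifs with h1 h2
    · refine ⟨(i.1 : ℤ) * (m + 1), Or.inl (Or.inl ⟨by positivity, ?_, by rw [hP]; ring⟩)⟩
      have : (i.1 : ℤ) + 1 ≤ m := by omega
      have := mul_le_mul_of_nonneg_right this (by linarith : (0 : ℤ) ≤ m + 1)
      rw [hP]
      linarith
    · refine ⟨((i.1 : ℤ) - m) * (m + 1), Or.inl (Or.inr ⟨mul_nonneg (by omega) (by linarith), ?_,
        by rw [hP]; ring⟩)⟩
      have : (i.1 : ℤ) - m + 1 ≤ m := by omega
      have := mul_le_mul_of_nonneg_right this (by linarith : (0 : ℤ) ≤ m + 1)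
      rw [hP]
      linarith
    · exact ⟨(i.1 : ℤ) - 2 * m, Or.inr ⟨by omega, by omega, by rw [hP]; ring⟩⟩
  obtain ⟨e1, h1⟩ := shape i
  obtain ⟨e2, h2⟩ := shape j
  obtain ⟨e3, h3⟩ := shape k
  have a1 := hu0 i.1
  have a2 := hu0 j.1
  have a3 := hu0 k.1
  have b1 := hu1 i.1
  have b2 := hu1 j.1
  have b3 := hu1 k.1
  rcases h1 with (⟨p1, q1, r1⟩ | ⟨p1, q1, r1⟩) | ⟨p1, q1, r1⟩ <;>
  rcases h2 with (⟨p2, q2, r2⟩ | ⟨p2, q2, r2⟩) | ⟨p2, q2, r2⟩ <;>
  rcases h3 with (⟨p3, q3, r3⟩ | ⟨p3, q3, r3⟩) | ⟨p3, q3, r3⟩ <;>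
  · rw [r1, r2, r3]
    omega

/-- the entries of a configuration -/
def ent {m : ℕ} (u : Fin m → Fin m) (l : ℕ) : ℤ := if h : l < m then ((u ⟨l, h⟩).1 : ℤ) else 0

theorem ent_nonneg {m : ℕ} (u : Fin m → Fin m) (l : ℕ) : 0 ≤ ent u l := by
  unfold ent
  split_ifs
  · positivity
  · exact le_rfl

theorem ent_le {m : ℕ} (hm : 2 ≤ m) (u : Fin m → Fin m) (l : ℕ) : ent u l ≤ m - 1 := by
  unfold ent
  split_ifs with h
  · have := (u ⟨l, h⟩).2
    omega
  · omega

theorem lower_pair {m : ℕ} (hm : 2 ≤ m) (t : Tree (3 * m) Bool)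
    (ht : ∀ x : Fin (3 * m) → ℤ, Function.Injective x → (∀ i, |x i| ≤ ((3 * m : ℕ) : ℤ) ^ 3) →
      (t.run (fun i => (x i : ℝ)) = true ↔ HasSum3 fun i => (x i : ℝ)))
    (u u' : Fin m → Fin m) (i : Fin m) (hi : (u i).1 < (u' i).1)
    (hsame : Same t (fun l => (W m 1 (fun l => 2 * ent u l) l : ℝ))
      (fun l => (W m 1 (fun l => 2 * ent u' l) l : ℝ))) : False := by
  have hmZ : (2 : ℤ) ≤ m := by exact_mod_cast hm
  have hu0 := ent_nonneg u
  have hu0' := ent_nonneg u'
  have hu1 := ent_le hm u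
  have hu1' := ent_le hm u'
  -- no solution at `u`
  have hno : ¬ t.run (fun l => (W m 1 (fun l => 2 * ent u l) l : ℝ)) = true := by
    rw [ht (W m 1 fun l => 2 * ent u l)]
    · rintro ⟨a, b, c, -, -, -, h⟩
      have h' : (W m 1 (fun l => 2 * ent u l) a : ℝ) + (W m 1 (fun l => 2 * ent u l) b : ℝ) =
        (W m 1 (fun l => 2 * ent u l) c : ℝ) := h
      exact W_no hm hu0 hu1 a b c (by exact_mod_cast h')
    · exact W_inj hm le_rfl (fun l => by have := hu0 l; positivity) fun l => by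
        have := hu1 l
        linarith
    · exact W_abs hm le_rfl (by linarith) (fun l => by have := hu0 l; positivity) fun l => by
        have := hu1 l
        linarith
  -- the solution in between
  set D : ℤ := (u' i).1 - (u i).1 with hD
  have hD1 : 1 ≤ D := by omega
  have hDm : D ≤ m - 1 := by
    have := (u' i).2
    omega
  set v : ℕ → ℤ := fun l => (2 * D - 1) * ent u l + ent u' l with hv
  have hv0 : ∀ l, 0 ≤ v l := fun l =>
    add_nonneg (mul_nonneg (by linarith) (hu0 l)) (hu0' l)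
  have hv1 : ∀ l, v l ≤ 2 * D * (m - 1) := by
    intro l
    have h1 : (2 * D - 1) * ent u l ≤ (2 * D - 1) * (m - 1) :=
      mul_le_mul_of_nonneg_left (hu1 l) (by linarith)
    have h2 := hu1' l
    simp only [hv]
    linarith
  have hz : (fun l => (W m D v l : ℝ)) = fun l : Fin (3 * m) =>
      ((2 * (D : ℝ) - 1) / 2) * (W m 1 (fun l => 2 * ent u l) l : ℝ) +
        (1 / 2) * (W m 1 (fun l => 2 * ent u' l) l : ℝ) := by
    funext l
    unfold W
    split_ifs
    · simp only [hv]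
      push_cast
      ring
    · push_cast
      ring
    · push_cast
      ring
  have hDR : (1 : ℝ) ≤ D := by exact_mod_cast hD1
  have hrun := Same.run t _ _ hsame (r := (2 * (D : ℝ) - 1) / 2) (s := 1 / 2) (by linarith)
    (by norm_num)
  rw [← hz] at hrun
  rw [← hrun] at hno
  apply hno
  rw [ht (W m D v) (W_inj hm hD1 hv0 hv1) (W_abs hm hD1 hDm hv0 hv1)]
  have hii := i.2
  have hui := (u i).2
  refine ⟨⟨i.1, by omega⟩, ⟨m + i.1, by omega⟩, ⟨2 * m + (u i).1, by omega⟩, ?_, ?_, ?_, ?_⟩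
  · intro h
    rw [Fin.mk.injEq] at h
    omega
  · intro h
    rw [Fin.mk.injEq] at h
    omega
  · intro h
    rw [Fin.mk.injEq] at h
    omega
  · have e1 : W m D v ⟨i.1, by omega⟩ = 2 * D * ((m * (m + 1) : ℤ) + i.1 * (m + 1)) + v i.1 := by
      unfold W
      rw [if_pos i.2]
    have e2 : W m D v ⟨m + i.1, by omega⟩ =
        2 * D * (6 * (m * (m + 1) : ℤ) - i.1 * (m + 1)) := by
      unfold W
      rw [if_neg (by simp only; omega), if_pos (by simp only; omega)]
      push_cast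
      ring
    have e3 : W m D v ⟨2 * m + (u i).1, by omega⟩ =
        D * (14 * (m * (m + 1) : ℤ) + 2 * (u i).1 + 1) := by
      unfold W
      rw [if_neg (by simp only; omega), if_neg (by simp only; omega)]
      push_cast
      ring
    have e4 : v i.1 = D * (2 * (u i).1 + 1) := by
      simp only [hv, ent, i.2, dif_pos, Fin.eta]
      rw [hD]
      ring
    have e5 : W m D v ⟨i.1, by omega⟩ + W m D v ⟨m + i.1, by omega⟩ =
        W m D v ⟨2 * m + (u i).1, by omega⟩ := by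
      rw [e1, e2, e3, e4]
      ring
    have e6 : ((W m D v ⟨i.1, by omega⟩ : ℤ) : ℝ) + ((W m D v ⟨m + i.1, by omega⟩ : ℤ) : ℝ) =
        ((W m D v ⟨2 * m + (u i).1, by omega⟩ : ℤ) : ℝ) := by exact_mod_cast e5
    exact e6

/-- the lower bound -/
theorem lower {m : ℕ} (t : Tree (3 * m) Bool)
    (ht : ∀ x : Fin (3 * m) → ℤ, Function.Injective x → (∀ i, |x i| ≤ ((3 * m : ℕ) : ℤ) ^ 3) →
      (t.run (fun i => (x i : ℝ)) = true ↔ HasSum3 fun i => (x i : ℝ))) :
    m ^ m ≤ 3 ^ t.depth := by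
  classical
  rcases Nat.lt_or_ge m 2 with hm | hm
  · have h1 : m ^ m ≤ 1 := by
      interval_cases m <;> simp
    exact h1.trans (Nat.one_le_pow _ _ (by norm_num))
  have h := leaves_bound t
    (fun (u : Fin m → Fin m) l => (W m 1 (fun l => 2 * ent u l) l : ℝ)) Finset.univ (by
    intro u _ u' _ hne hsame
    obtain ⟨i, hi⟩ : ∃ i, u i ≠ u' i := by
      by_contra hcon
      push Not at hcon
      exact hne (funext hcon)
    have hi' : (u i).1 ≠ (u' i).1 := fun h => hi (Fin.ext h)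
    rcases lt_or_gt_of_ne hi' with hlt | hgt
    · exact lower_pair hm t ht u u' i hlt hsame
    · exact lower_pair hm t ht u' u i hgt hsame.symm)
  rwa [Finset.card_univ, Fintype.card_fun, Fintype.card_fin] at h

end Pool.Agent.H81.TS
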