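import Pool.Agent.H81.TS.Cells

/-!
# Linear decision trees
-/

set_option autoImplicit false

open Finset Set

namespace Pool.Agent.H81.TS

namespace Tree

variable {n : ℕ} {α β : Type}

/-- change the answers -/
def map (f : α → β) : Tree n α → Tree n β
  | leaf r => leaf (f r)
  | node a neg zer pos => node a (neg.map f) (zer.map f) (pos.map f)

theorem map_depth (f : α → β) (t : Tree n α) : (t.map f).depth = t.depth := by
  induction t with
  | leaf r => rfl
  | node a neg zer pos h1 h2 h3 => simp only [map, depth, h1, h2, h3]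

theorem map_tests (f : α → β) (t : Tree n α) : (t.map f).tests = t.tests := by
  induction t with
  | leaf r => rfl
  | node a neg zer pos h1 h2 h3 => simp only [map, tests, h1, h2, h3]

theorem map_run (f : α → β) (x : Fin n → ℝ) (t : Tree n α) : (t.map f).run x = f (t.run x) := by
  induction t with
  | leaf r => rfl
  | node a neg zer pos h1 h2 h3 =>
    simp only [map, run, h1, h2, h3]
    split_ifs <;> rfl

end Tree

/-- the tree of a search with a budget -/
theorem tree_of_solv {n : ℕ} {J : Type} (g : J → Fin n → ℤ) {c : ℝ} {X : Set (Fin n → ℝ)}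
    (h : Solv (V g) c X) : ∃ t : Tree n (J → SignType), (t.depth : ℝ) ≤ c ∧
      (∀ a ∈ t.tests, ∃ p q, a = g p - g q) ∧
      ∀ x ∈ X, ∀ j, t.run x j = SignType.sign (V g j x) := by
  induction h with
  | done c X hc h =>
    by_cases hX : X.Nonempty
    · obtain ⟨x0, hx0⟩ := hX
      refine ⟨Tree.leaf fun j => SignType.sign (V g j x0), by simpa [Tree.depth] using hc, ?_, ?_⟩
      · intro a ha
        exact absurd ha (Set.notMem_empty a)
      · intro x hx j
        exact h j x0 hx0 x hx
    · refine ⟨Tree.leaf fun _ => 0, by simpa [Tree.depth] using hc, ?_, ?_⟩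
      · intro a ha
        exact absurd ha (Set.notMem_empty a)
      · intro x hx
        exact absurd ⟨x, hx⟩ hX
  | test c X p q h1 h2 h3 ih1 ih2 ih3 =>
    obtain ⟨t1, d1, s1, r1⟩ := ih1
    obtain ⟨t2, d2, s2, r2⟩ := ih2
    obtain ⟨t3, d3, s3, r3⟩ := ih3
    have hval : ∀ x, value (g p - g q) x = V g p x - V g q x := fun x => value_sub _ _ _
    refine ⟨Tree.node (g p - g q) t1 t2 t3, ?_, ?_, ?_⟩
    · have : ((max t1.depth (max t2.depth t3.depth) : ℕ) : ℝ) ≤ c - 1 := by
        push_cast
        exact max_le d1 (max_le d2 d3)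
      simp only [Tree.depth]
      push_cast at this ⊢
      linarith
    · rintro a (((ha | ha) | ha) | ha)
      · exact ⟨p, q, ha⟩
      · exact s1 a ha
      · exact s2 a ha
      · exact s3 a ha
    · intro x hx j
      simp only [Tree.run]
      rw [hval]
      split_ifs with hl he
      · exact r1 x ⟨hx, by simpa using sub_neg.1 hl⟩ j
      · exact r2 x ⟨hx, by simpa using sub_eq_zero.1 he⟩ j
      · refine r3 x ⟨hx, ?_⟩ j
        have : 0 < V g p x - V g q x := lt_of_le_of_ne (not_lt.1 hl) (Ne.symm he)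
        simpa using sub_pos.1 this

/-- the signs of all forms of a finite family -/
theorem tree_exists {n : ℕ} (H : Finset (Fin n → ℤ)) (w b : ℕ) (hw0 : 0 < w)
    (hb : 16 * w ≤ 2 ^ b) (hw : ∀ h ∈ H, ∑ j, (h j).natAbs ≤ w) :
    ∃ t : Tree n ((Fin n → ℤ) → SignType),
      (∀ c ∈ t.tests, ∃ h ∈ insert 0 H, ∃ h' ∈ insert 0 H, c = h - h') ∧
      (t.depth : ℝ) ≤ 268 * (b * n + 1) * Real.logb 2 (H.card + 1) ∧
      ∀ x : Fin n → ℝ, ∀ h ∈ H, t.run x h = SignType.sign (value h x) := by
  classical
  rcases H.eq_empty_or_nonempty with rfl | hne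
  · refine ⟨Tree.leaf fun _ => 0, ?_, ?_, ?_⟩
    · intro c hc
      exact absurd hc (Set.notMem_empty c)
    · simp [Tree.depth]
    · intro x h hh
      exact absurd hh (Finset.notMem_empty h)
  have hb1 : 1 ≤ b := by
    by_contra hcon
    have : b = 0 := by omega
    subst this
    simp at hb
    omega
  let g : Option H → Fin n → ℤ := fun j => j.elim 0 fun h => (h : Fin n → ℤ)
  have hg : ∀ j, g j ∈ insert 0 H := by
    intro j
    cases j with
    | none => exact Finset.mem_insert_self _ _
    | some h => exact Finset.mem_insert_of_mem h.2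
  have hnorm : ∀ j, ∑ i, (g j i).natAbs ≤ w := by
    intro j
    cases j with
    | none => simp [g]
    | some h => exact hw h h.2
  have hcomp : Compress (V g) none (6 * (b * n + 1)) := by
    apply compress_forms g none rfl (2 * w) b (by omega) (by omega)
    intro p q
    calc ∑ j, (g p j - g q j).natAbs ≤ ∑ j, ((g p j).natAbs + (g q j).natAbs) :=
          Finset.sum_le_sum fun j _ => Int.natAbs_sub_le _ _
      _ = ∑ j, (g p j).natAbs + ∑ j, (g q j).natAbs := Finset.sum_add_distrib
      _ ≤ w + w := add_le_add (hnorm p) (hnorm q)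
      _ = 2 * w := by ring
  have hsolv := Solv_main hcomp (by omega) _ Set.univ le_rfl ⟨fun _ => 0, trivial⟩
  obtain ⟨t, hd, ht, hr⟩ := tree_of_solv g hsolv
  set y : ℕ := Fintype.card (Option H) with hy
  have hyc : y = H.card + 1 := by rw [hy, Fintype.card_option, Fintype.card_coe]
  have hy2 : 2 ≤ y := by
    have := Finset.card_pos.2 hne
    omega
  have hyR : (2 : ℝ) ≤ y := by exact_mod_cast hy2
  have hL1 : 1 ≤ Real.logb 2 y := by
    rw [Real.le_logb_iff_rpow_le (by norm_num) (by linarith)]
    simpa using hyR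
  have hlog1 : Real.logb 2 (N (V g) Set.univ) ≤ n * (4 * Real.logb 2 y) := by
    have h1 : (N (V g) Set.univ : ℝ) ≤ ((y : ℝ) ^ 4) ^ n := by
      have h2 : N (V g) Set.univ ≤ (y ^ 4) ^ n := by
        refine (N_univ_le g).trans (Nat.pow_le_pow_left ?_ _)
        rw [← hy]
        nlinarith [Nat.mul_le_mul hy2 hy2]
      exact_mod_cast h2
    calc Real.logb 2 (N (V g) Set.univ) ≤ Real.logb 2 (((y : ℝ) ^ 4) ^ n) := by
          apply Real.logb_le_logb_of_le (by norm_num) _ h1
          exact_mod_cast N_pos (v := V g) (X := Set.univ) ⟨fun _ => 0, trivial⟩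
      _ = n * (4 * Real.logb 2 y) := by
          rw [Real.logb_pow, Real.logb_pow]
          push_cast
          ring
  have hlog2 : Real.logb (8 / 7) y ≤ 6 * Real.logb 2 y := by
    have h1 : Real.logb (8 / 7) y = Real.logb (8 / 7) 2 * Real.logb 2 y := by
      rw [Real.mul_logb (by norm_num) (by norm_num) (by norm_num)]
    have h2 : Real.logb (8 / 7) 2 ≤ 6 := by
      rw [Real.logb_le_iff_le_rpow (by norm_num) (by norm_num)]
      norm_num
    rw [h1]
    exact mul_le_mul_of_nonneg_right h2 (by linarith)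
  have hrho : rho (Open (V g) Set.univ).card ≤ 1 + 6 * Real.logb 2 y := by
    have h1 : (Open (V g) Set.univ).card ≤ y := by
      rw [hy, ← Finset.card_univ]
      exact Finset.card_le_card (Finset.subset_univ _)
    refine (rho_mono h1).trans ?_
    unfold rho
    rw [if_neg (by omega)]
    linarith
  refine ⟨t.map fun r h => if hh : h ∈ H then r (some ⟨h, hh⟩) else 0, ?_, ?_, ?_⟩
  · intro c hc
    rw [Tree.map_tests] at hc
    obtain ⟨p, q, hpq⟩ := ht c hc
    exact ⟨g p, hg p, g q, hg q, hpq⟩
  · rw [Tree.map_depth]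
    have e1 : ((H.card : ℝ) + 1) = y := by rw [hyc]; push_cast; ring
    rw [e1]
    refine hd.trans ?_
    have hn : (0 : ℝ) ≤ n := Nat.cast_nonneg n
    have hbR : (1 : ℝ) ≤ b := by exact_mod_cast hb1
    have hbn : (n : ℝ) ≤ b * n := by nlinarith
    set L := Real.logb 2 (y : ℝ) with hL
    have h3 : (36 * ((b : ℝ) * n + 1)) * rho (Open (V g) Set.univ).card ≤
        (36 * ((b : ℝ) * n + 1)) * (7 * L) := by
      apply mul_le_mul_of_nonneg_left _ (by positivity)
      linarith
    have h4 : (n : ℝ) * L ≤ ((b : ℝ) * n + 1) * L :=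
      mul_le_mul_of_nonneg_right (by linarith) (by linarith)
    push_cast
    nlinarith [h3, h4, hlog1]
  · intro x h hh
    rw [Tree.map_run, dif_pos hh, hr x trivial]
    rfl

end Pool.Agent.H81.TS
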